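import Pool.Agent.TH867.QF.Basic
import Pool.Agent.TH867.SR.LB

/-!
Many points of the projective line over the rationals with a small radical of the product of the
values of `q` linear forms (helper893; the argument is that of helper867).
-/

set_option autoImplicit false

namespace Pool.Agent.TH893.PG

open Finset

/-- Normalised coprime integer coordinates. -/
def Nrm (x : ℤ × ℤ) : Prop := IsCoprime x.1 x.2 ∧ (0 < x.2 ∨ x.2 = 0 ∧ 0 < x.1)

/-- the determinant `x₀ a₁ - x₁ a₀` -/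
def dw (x a : ℤ × ℤ) : ℤ := x.1 * a.2 - x.2 * a.1

/-- the linear forms -/
def FL {q : ℕ} (α : Fin q → ℤ × ℤ)
    (hα : ∀ i j, i ≠ j → (α i).1 * (α j).2 ≠ (α j).1 * (α i).2) : Pool.Agent.TH867.QF.Fm q where
  u i := (α i).2
  w i := - (α i).1
  res i j hij h0 := hα i j hij (by linarith)

open Pool.Agent.TH867.QF in
theorem ev_eq {q : ℕ} (α : Fin q → ℤ × ℤ)
    (hα : ∀ i j, i ≠ j → (α i).1 * (α j).2 ≠ (α j).1 * (α i).2) (x : ℤ × ℤ) (i : Fin q) :
    ev (FL α hα) x i = x.1 * (α i).2 - x.2 * (α i).1 := by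
  unfold ev FL
  ring

open Pool.Agent.TH867.QF in
theorem va_eq {q : ℕ} (α : Fin q → ℤ × ℤ)
    (hα : ∀ i j, i ≠ j → (α i).1 * (α j).2 ≠ (α j).1 * (α i).2) (x : ℤ × ℤ) (i : Fin q) :
    va (FL α hα) x i = (dw x (α i)).natAbs := by
  unfold va
  rw [ev_eq]
  rfl

open Pool.Agent.TH867.QF in
theorem line_lower (q : ℕ) (hq : 3 ≤ q) (α : Fin q → ℤ × ℤ)
    (hα : ∀ i j, i ≠ j → (α i).1 * (α j).2 ≠ (α j).1 * (α i).2) :
    ∃ c : ℝ, 0 < c ∧ ∃ X₀ : ℝ, ∀ X : ℝ, X₀ ≤ X → ∃ G : Finset (ℤ × ℤ),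
      c * X ^ (2 / (q : ℝ)) ≤ (G.card : ℝ) ∧ ∀ x ∈ G, Nrm x ∧ (∀ i, dw x (α i) ≠ 0) ∧
        Real.log ((∏ i, dw x (α i)).natAbs : ℝ) ≤ Real.log X := by
  classical
  obtain ⟨u, hu⟩ : ∃ u, u = U (FL α hα) := ⟨_, rfl⟩
  have hu1 : 1 ≤ u := by rw [hu]; exact U_pos _
  have huR : (1 : ℝ) ≤ u := by exact_mod_cast hu1
  have huR0 : (0 : ℝ) < u := by linarith
  have hqR : (3 : ℝ) ≤ q := by exact_mod_cast hq
  have hq0 : (0 : ℝ) < q := by linarith
  have : NeZero q := ⟨by omega⟩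
  refine ⟨1 / (64 * u ^ 2), by positivity, max 1 ((8 * u * q) ^ (q : ℝ)), fun X hX => ?_⟩
  have hX1 : 1 ≤ X := (le_max_left _ _).trans hX
  have hX0 : 0 < X := by linarith
  obtain ⟨Y, hY⟩ : ∃ Y : ℝ, Y = X ^ (1 / (q : ℝ)) := ⟨_, rfl⟩
  have hY0 : 0 < Y := by rw [hY]; positivity
  have hYbig : 8 * u * q ≤ Y := by
    have h1 : ((8 * u * q) ^ (q : ℝ)) ^ (1 / (q : ℝ)) ≤ X ^ (1 / (q : ℝ)) :=
      Real.rpow_le_rpow (by positivity) ((le_max_right _ _).trans hX) (by positivity)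
    rwa [← Real.rpow_mul (by positivity), mul_one_div_cancel hq0.ne', Real.rpow_one, ← hY] at h1
  obtain ⟨N, hN⟩ : ∃ N : ℕ, N = ⌊Y / u⌋₊ := ⟨_, rfl⟩
  have hNle : (N : ℝ) ≤ Y / u := by rw [hN]; exact Nat.floor_le (by positivity)
  have hNge : Y / u - 1 < N := by rw [hN]; exact Nat.sub_one_lt_floor _
  have hYu : 8 * q ≤ Y / u := by
    rw [le_div_iff₀ huR0]
    linarith
  have hN2 : Y / u / 2 ≤ N := by linarith
  have hN1 : 1 ≤ N := by
    have : (1 : ℝ) ≤ N := by linarith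
    exact_mod_cast this
  have hYlog : Real.log Y = Real.log X / q := by
    rw [hY, Real.log_rpow hX0]; ring
  -- the pairs
  let φ : ℕ × ℕ → ℤ × ℤ := fun p => ((p.1 : ℤ), (p.2 : ℤ))
  have hφ : Function.Injective φ := by
    intro p p' hp
    simp only [φ, Prod.mk.injEq, Nat.cast_inj] at hp
    exact Prod.ext hp.1 hp.2
  set G := Pool.Agent.TH867.SR.cpp N with hG
  set B : Fin q → Finset (ℕ × ℕ) := fun i =>
    G.filter fun p => (p.1 : ℤ) * (α i).2 - (p.2 : ℤ) * (α i).1 = 0 with hB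
  have hmemG : ∀ p ∈ G, 0 < p.1 ∧ p.1 ≤ N ∧ 0 < p.2 ∧ p.2 ≤ N ∧ Nat.Coprime p.1 p.2 := by
    intro p hp
    obtain ⟨h1, _, h3⟩ := Finset.mem_filter.1 hp
    rw [Finset.mem_product, Finset.mem_Ioc, Finset.mem_Ioc] at h1
    exact ⟨h1.1.1, h1.1.2, h1.2.1, h1.2.2, h3⟩
  have hBcard : ∀ i, (B i).card ≤ 1 := by
    intro i
    rw [Finset.card_le_one]
    intro p hp p' hp'
    obtain ⟨a1, a2⟩ := Finset.mem_filter.1 hp
    obtain ⟨b1, b2⟩ := Finset.mem_filter.1 hp'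
    obtain ⟨a3, -, a4, -, a5⟩ := hmemG p a1
    obtain ⟨b3, -, b4, -, b5⟩ := hmemG p' b1
    obtain ⟨j, hj⟩ : ∃ j : Fin q, i ≠ j := by
      by_contra hcon
      push Not at hcon
      have e1 := hcon ⟨0, by omega⟩
      have e2 := hcon ⟨1, by omega⟩
      rw [e1] at e2
      exact absurd (Fin.mk.inj_iff.1 e2) (by norm_num)
    have hd : dt (φ p) (φ p') = 0 := by
      have h1 : (α i).2 * dt (φ p) (φ p') = 0 := by
        simp only [dt, φ]
        linear_combination (p'.2 : ℤ) * a2 - (p.2 : ℤ) * b2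
      have h2 : (α i).1 * dt (φ p) (φ p') = 0 := by
        simp only [dt, φ]
        linear_combination (p'.1 : ℤ) * a2 - (p.1 : ℤ) * b2
      rcases mul_eq_zero.1 h1 with h3 | h3
      · rcases mul_eq_zero.1 h2 with h4 | h4
        · exfalso
          apply hα i j hj
          rw [h3, h4]; ring
        · exact h4
      · exact h3
    obtain ⟨c, hc, c1, c2⟩ := proportional (P := φ p) (P' := φ p')
      (Nat.isCoprime_iff_coprime.2 a5) (Nat.isCoprime_iff_coprime.2 b5) hd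
    simp only [φ] at c1 c2
    rcases hc with rfl | rfl
    · apply hφ
      simp only [φ]
      rw [c1, c2, one_mul, one_mul]
    · exfalso
      omega
  have hcov : G ⊆ (G.filter fun p => ∀ i, (p.1 : ℤ) * (α i).2 - (p.2 : ℤ) * (α i).1 ≠ 0) ∪
      (Finset.univ : Finset (Fin q)).biUnion B := by
    intro p hp
    rw [Finset.mem_union]
    by_cases h0 : ∀ i, (p.1 : ℤ) * (α i).2 - (p.2 : ℤ) * (α i).1 ≠ 0
    · exact Or.inl (Finset.mem_filter.2 ⟨hp, h0⟩)
    · push Not at h0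
      obtain ⟨i, hi⟩ := h0
      exact Or.inr (Finset.mem_biUnion.2 ⟨i, Finset.mem_univ _, Finset.mem_filter.2 ⟨hp, hi⟩⟩)
  set G' := G.filter fun p => ∀ i, (p.1 : ℤ) * (α i).2 - (p.2 : ℤ) * (α i).1 ≠ 0 with hG'
  have hcard1 : (G.card : ℝ) ≤ (G'.card : ℝ) + q := by
    have h1 : G.card ≤ G'.card + q := by
      refine (Finset.card_le_card hcov).trans ((Finset.card_union_le _ _).trans ?_)
      refine Nat.add_le_add_left ?_ _
      refine (Finset.card_biUnion_le_card_mul _ _ 1 fun i _ => hBcard i).trans (le_of_eq ?_)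
      rw [Finset.card_univ, Fintype.card_fin, Nat.mul_one]
    exact_mod_cast h1
  have hcard2 := Pool.Agent.TH867.SR.coprime_count N hN1
  have hsub : ∀ x ∈ G'.image φ, Nrm x ∧ (∀ i, dw x (α i) ≠ 0) ∧
      Real.log ((∏ i, dw x (α i)).natAbs : ℝ) ≤ Real.log X := by
    intro x hx
    rw [Finset.mem_image] at hx
    obtain ⟨p, hp, rfl⟩ := hx
    obtain ⟨a1, a2⟩ := Finset.mem_filter.1 hp
    obtain ⟨b1, b2, b3, b4, b5⟩ := hmemG p a1
    have hcop : IsCoprime (φ p).1 (φ p).2 := Nat.isCoprime_iff_coprime.2 b5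
    have hpt : Pt (FL α hα) (φ p) := ⟨hcop, fun i => by rw [ev_eq]; exact a2 i⟩
    have hht : ht (φ p) ≤ N := by
      refine max_le ?_ ?_
      · show ((p.1 : ℤ)).natAbs ≤ N
        rw [Int.natAbs_natCast]; exact b2
      · show ((p.2 : ℤ)).natAbs ≤ N
        rw [Int.natAbs_natCast]; exact b4
    have hhR : (ht (φ p) : ℝ) ≤ Y / u := by
      have : (ht (φ p) : ℝ) ≤ N := by exact_mod_cast hht
      linarith
    have hht0 : (0 : ℝ) < ht (φ p) := by exact_mod_cast ht_pos hpt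
    refine ⟨⟨hcop, Or.inl ?_⟩, a2, ?_⟩
    · show (0 : ℤ) < (p.2 : ℤ)
      exact_mod_cast b3
    · rw [show (∏ i, dw (φ p) (α i)).natAbs = ∏ i, (dw (φ p) (α i)).natAbs from
        map_prod Int.natAbsHom _ Finset.univ]
      push_cast [-Nat.cast_natAbs]
      rw [Real.log_prod (fun i _ => by
        have := va_pos hpt i
        rw [va_eq] at this
        exact_mod_cast this.ne')]
      have h1 : ∀ i : Fin q, Real.log ((dw (φ p) (α i)).natAbs : ℝ) ≤ Real.log X / q := by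
        intro i
        have hv := va_pos hpt i
        have h4 : (va (FL α hα) (φ p) i : ℝ) ≤ u * ht (φ p) := by
          rw [hu]
          exact_mod_cast va_le (FL α hα) (φ p) i
        rw [va_eq] at hv h4
        rw [← hYlog]
        refine Real.log_le_log (by exact_mod_cast hv) ?_
        refine h4.trans ?_
        have h5 : (u : ℝ) * ht (φ p) ≤ u * (Y / u) := mul_le_mul_of_nonneg_left hhR huR0.le
        rwa [mul_div_cancel₀ _ huR0.ne'] at h5
      refine (Finset.sum_le_sum fun i _ => h1 i).trans (le_of_eq ?_)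
      rw [Finset.sum_const, Finset.card_univ, Fintype.card_fin, nsmul_eq_mul]
      field_simp
  refine ⟨G'.image φ, ?_, hsub⟩
  rw [Finset.card_image_of_injective _ hφ]
  have hYY : X ^ (2 / (q : ℝ)) = Y ^ 2 := by
    rw [hY, ← Real.rpow_natCast (X ^ (1 / (q : ℝ))) 2, ← Real.rpow_mul hX0.le]
    congr 1
    push_cast
    ring
  rw [hYY]
  have e1 : (Y / u / 2) ^ 2 ≤ (N : ℝ) ^ 2 := pow_le_pow_left₀ (by positivity) hN2 2
  have e2 : (8 * (q : ℝ)) * (8 * q) ≤ (Y / u) * (Y / u) :=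
    mul_le_mul hYu hYu (by positivity) (by positivity)
  have e3 : (q : ℝ) ≤ (Y / u) ^ 2 / 64 := by
    rw [sq, le_div_iff₀ (by norm_num)]
    nlinarith
  have e4 : 1 / (64 * (u : ℝ) ^ 2) * Y ^ 2 = (Y / u) ^ 2 / 64 := by
    field_simp
  have e5 : (Y / u / 2) ^ 2 = (Y / u) ^ 2 / 4 := by ring
  rw [e4]
  rw [e5] at e1
  linarith


end Pool.Agent.TH893.PG
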