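import Pool.Agent.TH893.PG.Pairs
import Pool.Agent.TH893.PG.Low

/-!
Points of the product of two projective lines over the rationals (helper893).
-/

set_option autoImplicit false

namespace Pool.Agent.TH893.PG

open Finset
open Pool.Agent.TH867.QF (Fm Pt Np va ev log_prod_primes)

theorem fin_of {τ : Type} {A : Set τ} {K : ℝ} (h : ∀ F : Finset τ, (F : Set τ) ⊆ A →
    (F.card : ℝ) ≤ K) : A.Finite ∧ (A.ncard : ℝ) ≤ K := by
  classical
  have hfin : A.Finite := by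
    by_contra hinf
    obtain ⟨F, hF, hFc⟩ := Set.Infinite.exists_subset_card_eq hinf (⌊K⌋₊ + 1)
    have h1 := h F hF
    rw [hFc] at h1
    have h2 := Nat.lt_floor_add_one K
    push_cast at h1 h2
    linarith
  refine ⟨hfin, ?_⟩
  have h1 := h hfin.toFinset (by simp)
  rwa [← Set.ncard_eq_toFinset_card _ hfin] at h1

/-- the product of the determinants -/
def pw {q : ℕ} (α : Fin q → ℤ × ℤ) (x : ℤ × ℤ) : ℤ := ∏ i, dw x (α i)

theorem Np_eq {q : ℕ} (α : Fin q → ℤ × ℤ)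
    (hα : ∀ i j, i ≠ j → (α i).1 * (α j).2 ≠ (α j).1 * (α i).2) (x : ℤ × ℤ) :
    Np (FL α hα) x = (pw α x).natAbs := by
  unfold Np pw
  rw [show (∏ i, dw x (α i)).natAbs = ∏ i, (dw x (α i)).natAbs from
    map_prod Int.natAbsHom _ Finset.univ]
  exact Finset.prod_congr rfl fun i _ => va_eq α hα x i

theorem pt_of {q : ℕ} (α : Fin q → ℤ × ℤ)
    (hα : ∀ i j, i ≠ j → (α i).1 * (α j).2 ≠ (α j).1 * (α i).2) {x : ℤ × ℤ}
    (h1 : IsCoprime x.1 x.2) (h2 : pw α x ≠ 0) : Pt (FL α hα) x := by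
  refine ⟨h1, fun i => ?_⟩
  rw [ev_eq]
  exact Finset.prod_ne_zero_iff.1 h2 i (Finset.mem_univ _)

/-- the logarithm of the radical, apart from the primes of `S` -/
noncomputable def lS (S : Finset ℕ) (n : ℤ) : ℝ := ∑ p ∈ n.natAbs.primeFactors \ S, Real.log (p : ℝ)

theorem lS_nonneg (S : Finset ℕ) (n : ℤ) : 0 ≤ lS S n :=
  Finset.sum_nonneg fun _ _ => Real.log_natCast_nonneg _

theorem lS_mul_le (S : Finset ℕ) {m n : ℤ} (hm : m ≠ 0) (hn : n ≠ 0) :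
    lS S (m * n) ≤ lS S m + lS S n := by
  classical
  unfold lS
  rw [Int.natAbs_mul, Nat.primeFactors_mul (Int.natAbs_ne_zero.2 hm) (Int.natAbs_ne_zero.2 hn),
    Finset.union_sdiff_distrib]
  exact Pool.Agent.TH867.QF.sum_union_le' (fun q : ℕ => Real.log (q : ℝ))
    (fun q => Real.log_natCast_nonneg q) _ _

theorem lS_le_log (S : Finset ℕ) {n : ℤ} (hn : n ≠ 0) : lS S n ≤ Real.log (n.natAbs : ℝ) := by
  unfold lS
  refine (Finset.sum_le_sum_of_subset_of_nonneg Finset.sdiff_subset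
    fun q _ _ => Real.log_natCast_nonneg q).trans ?_
  rw [← log_prod_primes fun q hq => Nat.prime_of_mem_primeFactors hq]
  refine Real.log_le_log ?_ ?_
  · exact_mod_cast Finset.prod_pos fun q hq => (Nat.prime_of_mem_primeFactors hq).pos
  · exact_mod_cast Nat.le_of_dvd (Int.natAbs_pos.2 hn) (Nat.prod_primeFactors_dvd _)

theorem union_le {q r : ℕ} (α : Fin q → ℤ × ℤ) (β : Fin r → ℤ × ℤ)
    (hα : ∀ i j, i ≠ j → (α i).1 * (α j).2 ≠ (α j).1 * (α i).2)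
    (hβ : ∀ i j, i ≠ j → (β i).1 * (β j).2 ≠ (β j).1 * (β i).2) (S : Finset ℕ)
    {x y : ℤ × ℤ} (hx : pw α x ≠ 0) (hy : pw β y ≠ 0) :
    ∑ p ∈ (Np (FL α hα) x).primeFactors ∪ (Np (FL β hβ) y).primeFactors, Real.log (p : ℝ) ≤
      lS S (pw α x * pw β y) + ∑ p ∈ S, Real.log (p : ℝ) := by
  classical
  rw [Np_eq, Np_eq, ← Nat.primeFactors_mul (Int.natAbs_ne_zero.2 hx) (Int.natAbs_ne_zero.2 hy),
    ← Int.natAbs_mul]
  exact sum_sdiff_le _ _

theorem lN_le {q : ℕ} (α : Fin q → ℤ × ℤ)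
    (hα : ∀ i j, i ≠ j → (α i).1 * (α j).2 ≠ (α j).1 * (α i).2) (S : Finset ℕ) (x : ℤ × ℤ) :
    lN (FL α hα) x ≤ lS S (pw α x) + ∑ p ∈ S, Real.log (p : ℝ) := by
  unfold lN
  rw [Np_eq]
  exact sum_sdiff_le _ _

/-- a point off the given ones -/
theorem exists_off {r : ℕ} (β : Fin r → ℤ × ℤ) (hc : ∀ j, IsCoprime (β j).1 (β j).2) :
    ∃ y : ℤ × ℤ, Nrm y ∧ pw β y ≠ 0 := by
  obtain ⟨m, hm⟩ : ∃ m : ℤ, m = 1 + ∑ j, |(β j).1| := ⟨_, rfl⟩
  have hm1 : ∀ j, |(β j).1| < m := by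
    intro j
    have h1 : |(β j).1| ≤ ∑ j, |(β j).1| :=
      Finset.single_le_sum (f := fun j => |(β j).1|) (fun _ _ => abs_nonneg _) (Finset.mem_univ j)
    omega
  refine ⟨(m, 1), ⟨isCoprime_one_right, Or.inl one_pos⟩, ?_⟩
  refine Finset.prod_ne_zero_iff.2 fun j _ => ?_
  unfold dw
  simp only
  rw [one_mul]
  intro h0
  have h1 : m * (β j).2 = (β j).1 := by linarith
  have h2 := hm1 j
  rcases eq_or_ne (β j).2 0 with h3 | h3
  · rw [h3, mul_zero] at h1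
    have h4 := hc j
    rw [h3, ← h1] at h4
    exact not_isCoprime_zero_zero h4
  · have h5 : 1 ≤ |(β j).2| := Int.one_le_abs h3
    have h6 : |(β j).1| = |m| * |(β j).2| := by rw [← h1, abs_mul]
    have h7 : m ≤ |m| := le_abs_self m
    have h8 : 0 ≤ |(β j).1| := abs_nonneg _
    nlinarith

end Pool.Agent.TH893.PG
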