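import Pool.Agent.TH893.PG.Free
import Pool.Agent.TH867.SQ.Line
import Pool.Agent.TH867.QF.Ht

/-!
Points of the projective line of all heights: the radical apart from given primes; slices
(helper893).
-/

set_option autoImplicit false

namespace Pool.Agent.TH893.PG

open Finset
open Pool.Agent.TH867.QF

/-- the logarithm of the radical of the product of the values -/
noncomputable def lN {r : ℕ} (L : Fm r) (P : ℤ × ℤ) : ℝ :=
  ∑ q ∈ (Np L P).primeFactors, Real.log (q : ℝ)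

theorem lN_nonneg {r : ℕ} (L : Fm r) (P : ℤ × ℤ) : 0 ≤ lN L P :=
  Finset.sum_nonneg fun _ _ => Real.log_natCast_nonneg _

theorem sum_sdiff_le (A S : Finset ℕ) :
    ∑ p ∈ A, Real.log (p : ℝ) ≤ ∑ p ∈ A \ S, Real.log (p : ℝ) + ∑ p ∈ S, Real.log (p : ℝ) := by
  classical
  have hf : ∀ q : ℕ, 0 ≤ Real.log (q : ℝ) := fun q => Real.log_natCast_nonneg q
  rw [← Finset.sum_sdiff (Finset.inter_subset_left : A ∩ S ⊆ A)]
  have e : A \ (A ∩ S) = A \ S := by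
    ext p; simp only [Finset.mem_sdiff, Finset.mem_inter]; tauto
  rw [e]
  have := Finset.sum_le_sum_of_subset_of_nonneg (f := fun p : ℕ => Real.log (p : ℝ))
    (Finset.inter_subset_right : A ∩ S ⊆ S) fun p _ _ => hf p
  linarith

/-- **points of all heights, free primes** -/
theorem free_all {d : ℕ} (L : Fm (d + 3)) (ε : ℝ) (hε : 0 < ε) : ∃ D : ℝ, 0 < D ∧
    ∀ M Y : ℝ, 1 ≤ M → 1 ≤ Y → ∀ T : Finset ℕ, (∀ q ∈ T, q.Prime) →
      ((∏ q ∈ T, q : ℕ) : ℝ) ≤ Y → ∀ F : Finset (ℤ × ℤ), (∀ t ∈ F, Pt L t ∧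
        ∑ q ∈ (Np L t).primeFactors \ T, Real.log (q : ℝ) ≤ Real.log M) →
      (F.card : ℝ) ≤ D * M ^ (3 / ((d : ℝ) + 3) + ε) * Y ^ ε := by
  classical
  obtain ⟨k0, hk0⟩ : ∃ k : ℕ, 10 / ε ≤ k := exists_nat_ge _
  obtain ⟨k, hkd⟩ : ∃ k : ℕ, k = k0 + 2 := ⟨_, rfl⟩
  have hk2 : 2 ≤ k := by omega
  have hk2' : (2 : ℝ) ≤ k := by exact_mod_cast hk2
  have hkp : (0 : ℝ) < k := by linarith
  have hkε : 5 / (k : ℝ) ≤ ε / 2 := by
    have h1 : 10 / ε ≤ (k : ℝ) := hk0.trans (by rw [hkd]; push_cast; linarith)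
    rw [div_le_iff₀ hε] at h1
    rw [div_le_iff₀ hkp]
    linarith
  obtain ⟨D, hD, h⟩ := light_free_total (L := L) (by omega) (by omega : 1 ≤ k)
  obtain ⟨D2, hD2, hlog⟩ := Pool.Agent.TH867.SM.log_pow_le (ε / 2) (by positivity)
  obtain ⟨c, hc⟩ : ∃ c : ℝ, c = 4 * Real.log (Rs L) + Real.log (U L) := ⟨_, rfl⟩
  have n1 := Real.log_natCast_nonneg (Rs L)
  have n2 := Real.log_natCast_nonneg (U L)
  have hc0 : 0 ≤ c := by rw [hc]; linarith
  have hR1 : (1 : ℝ) ≤ Rs L := by exact_mod_cast Rs_pos L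
  have hR0 : (0 : ℝ) < Rs L := by linarith
  refine ⟨D * ((1 + c) * (D2 * (Rs L : ℝ) ^ (ε / 2))), by positivity,
    fun M Y hM hY T hT hTY F hF => ?_⟩
  have hM0 : 0 < M := by linarith
  have hY0 : 0 < Y := by linarith
  have hd3 : (0 : ℝ) < (d : ℝ) + 3 := by positivity
  have hd0 : (0 : ℝ) ≤ d := Nat.cast_nonneg d
  obtain ⟨X, hX⟩ : ∃ X, X = M * Y := ⟨_, rfl⟩
  have hX1 : 1 ≤ X := by rw [hX]; exact one_le_mul_of_one_le_of_one_le hM hY
  have hX0 : 0 < X := by linarith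
  have hlX : Real.log X = Real.log M + Real.log Y := by rw [hX, Real.log_mul hM0.ne' hY0.ne']
  have hTpos : 0 < ∏ q ∈ T, q := Finset.prod_pos fun q hq => (hT q hq).pos
  have hTlog : ∑ q ∈ T, Real.log (q : ℝ) ≤ Real.log Y := by
    rw [← log_prod_primes hT]
    exact Real.log_le_log (by exact_mod_cast hTpos) hTY
  have hXR1 : 1 ≤ X * Rs L := one_le_mul_of_one_le_of_one_le hX1 hR1
  obtain ⟨a, ha⟩ : ∃ a, a = 3000 * (1 + Real.log (X * Rs L)) ^ 6 := ⟨_, rfl⟩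
  have ha0 : 0 ≤ a := by
    rw [ha]
    have : 0 ≤ Real.log (X * Rs L) := Real.log_nonneg hXR1
    positivity
  have hH1 : 1 ≤ Real.exp (a + c) := Real.one_le_exp (by linarith)
  have hhts : ∀ t ∈ F, Real.log (ht t) ≤ Real.exp (a + c) := by
    intro t htF
    obtain ⟨a1, a2⟩ := hF t htF
    have h1 : ∑ i, rr L t i ≤ Real.log X := by
      rw [rr_sum, hlX]
      refine (sum_sdiff_le _ T).trans ?_
      linarith
    have h2 := height_forms (by omega) a1 hX1 h1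
    rw [← ha, ← hc] at h2
    refine h2.trans ?_
    rw [Real.exp_add]
    have h3 : 1 ≤ Real.exp a := Real.one_le_exp ha0
    have h4 : c + 1 ≤ Real.exp c := Real.add_one_le_exp c
    nlinarith
  obtain ⟨θ, hθ⟩ : ∃ θ : ℝ, θ = 3 / ((d : ℝ) + 3) + 2 / k := ⟨_, rfl⟩
  have hθ0 : 0 ≤ θ := by rw [hθ]; positivity
  have h1 := h (M ^ θ) Y (Real.exp (a + c)) (Real.one_le_rpow hM hθ0) hY hH1 T hT hTY F
    (fun t htF => by
      obtain ⟨a1, a2⟩ := hF t htF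
      refine ⟨a1, hhts t htF, fun hbig => ?_⟩
      obtain ⟨S, hS, hSl, hSs⟩ := choice_free hk2 a1 hbig T
      refine ⟨S, hS, hSl, ?_⟩
      have hpos : 0 < ∏ q ∈ S, q := Finset.prod_pos fun q hq => (hS q hq).pos
      rw [← Real.log_le_log_iff (by exact_mod_cast hpos) (by positivity),
        log_prod_primes hS, Real.log_rpow hM0]
      refine hSs.trans ?_
      rw [← hθ]
      exact mul_le_mul_of_nonneg_left a2 hθ0)
  refine h1.trans ?_
  have e1 : (M ^ θ) ^ (1 + 1 / (k : ℝ)) ≤ M ^ (3 / ((d : ℝ) + 3) + ε / 2) := by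
    rw [← Real.rpow_mul hM0.le]
    refine Real.rpow_le_rpow_of_exponent_le hM ?_
    rw [hθ]
    have e2 : (3 / ((d : ℝ) + 3) + 2 / k) * (1 + 1 / (k : ℝ)) =
        3 / ((d : ℝ) + 3) + (3 / ((d : ℝ) + 3)) * (1 / k) + 2 / k + 2 * (1 / k) * (1 / k) := by
      ring
    have e3 : 3 / ((d : ℝ) + 3) ≤ 1 := by
      rw [div_le_one hd3]; linarith
    have e4 : 0 < 1 / (k : ℝ) := by positivity
    have e5 : 1 / (k : ℝ) ≤ 1 := by rw [div_le_one hkp]; linarith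
    have e6 : 2 / (k : ℝ) = 2 * (1 / k) := by ring
    have e7 : 5 / (k : ℝ) = 5 * (1 / k) := by ring
    rw [e2, e6]
    rw [e7] at hkε
    nlinarith
  have e2 : Y ^ (1 / (k : ℝ)) ≤ Y ^ (ε / 2) := by
    refine Real.rpow_le_rpow_of_exponent_le hY ?_
    refine le_trans ?_ hkε
    exact div_le_div_of_nonneg_right (by norm_num) hkp.le
  have e3 : 1 + Real.log (Real.exp (a + c)) ≤
      (1 + c) * (D2 * (Rs L : ℝ) ^ (ε / 2)) * (M ^ (ε / 2) * Y ^ (ε / 2)) := by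
    rw [Real.log_exp]
    have h2 := hlog (X * Rs L) hXR1
    rw [← ha, Real.mul_rpow hX0.le hR0.le, hX, Real.mul_rpow hM0.le hY0.le] at h2
    calc 1 + (a + c) ≤ (1 + c) * (1 + a) := by nlinarith
      _ ≤ (1 + c) * (D2 * (M ^ (ε / 2) * Y ^ (ε / 2) * (Rs L : ℝ) ^ (ε / 2))) :=
          mul_le_mul_of_nonneg_left h2 (by linarith)
      _ = _ := by ring
  have e4 : M ^ (3 / ((d : ℝ) + 3) + ε / 2) * M ^ (ε / 2) = M ^ (3 / ((d : ℝ) + 3) + ε) := by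
    rw [← Real.rpow_add hM0]
    congr 1
    ring
  have e5 : Y ^ (ε / 2) * Y ^ (ε / 2) = Y ^ ε := by
    rw [← Real.rpow_add hY0]
    congr 1
    ring
  have hlH0 : 0 ≤ 1 + Real.log (Real.exp (a + c)) := by
    rw [Real.log_exp]; linarith
  calc D * (M ^ θ) ^ (1 + 1 / (k : ℝ)) * Y ^ (1 / (k : ℝ)) *
        (1 + Real.log (Real.exp (a + c))) ≤
      D * M ^ (3 / ((d : ℝ) + 3) + ε / 2) * Y ^ (ε / 2) *
        ((1 + c) * (D2 * (Rs L : ℝ) ^ (ε / 2)) * (M ^ (ε / 2) * Y ^ (ε / 2))) := by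
        refine mul_le_mul ?_ e3 hlH0 (by positivity)
        exact mul_le_mul (mul_le_mul_of_nonneg_left e1 hD.le) e2 (by positivity) (by positivity)
    _ = D * ((1 + c) * (D2 * (Rs L : ℝ) ^ (ε / 2))) *
        (M ^ (3 / ((d : ℝ) + 3) + ε / 2) * M ^ (ε / 2)) * (Y ^ (ε / 2) * Y ^ (ε / 2)) := by ring
    _ = _ := by rw [e4, e5]

/-- the sum of the radicals of the values and the radical of their product -/
theorem lr_sum_le {r : ℕ} [NeZero r] (L : Fm r) {P : ℤ × ℤ} (h : Pt L P) :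
    ∑ i, Pool.Agent.TH867.SQ.lr (va L P i) ≤ lN L P + r * Real.log (Rs L) := by
  classical
  have h1 : ∀ i, Pool.Agent.TH867.SQ.lr (va L P i) ≤ rr L P i + Real.log (Rs L) := by
    intro i
    unfold Pool.Agent.TH867.SQ.lr rr
    refine (Finset.sum_le_sum_of_subset_of_nonneg (pf_sub h i)
      fun q _ _ => Real.log_natCast_nonneg q).trans ?_
    refine (sum_union_le' (fun q : ℕ => Real.log (q : ℝ))
      (fun q => Real.log_natCast_nonneg q) _ _).trans ?_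
    have := sum_E_le L
    linarith
  refine (Finset.sum_le_sum fun i _ => h1 i).trans (le_of_eq ?_)
  rw [Finset.sum_add_distrib, rr_sum, Finset.sum_const, Finset.card_univ, Fintype.card_fin,
    nsmul_eq_mul, lN]

/-- points of all heights by the radical of the product of the values -/
theorem line_rad {d : ℕ} (L : Fm (d + 3)) (ε : ℝ) (hε : 0 < ε) : ∃ D : ℝ, 0 < D ∧
    ∀ Λ : ℝ, 0 ≤ Λ → ∀ F : Finset (ℤ × ℤ), (∀ P ∈ F, Pt L P ∧ lN L P ≤ Λ) →
    (F.card : ℝ) ≤ D * Real.exp ((2 / ((d : ℝ) + 3) + ε) * Λ) := by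
  classical
  obtain ⟨D, hD, h⟩ := Pool.Agent.TH867.SQ.line_all L ε hε
  obtain ⟨c, hc⟩ : ∃ c : ℝ, c = ((d + 3 : ℕ) : ℝ) * Real.log (Rs L) := ⟨_, rfl⟩
  have hc0 : 0 ≤ c := by
    rw [hc]
    exact mul_nonneg (Nat.cast_nonneg _) (Real.log_natCast_nonneg _)
  refine ⟨D * Real.exp ((2 / ((d : ℝ) + 3) + ε) * c), by positivity, fun Λ hΛ F hF => ?_⟩
  have h1 := h (Real.exp (Λ + c)) (Real.one_le_exp (by linarith)) F (fun P hP => by
    obtain ⟨a1, a2⟩ := hF P hP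
    refine ⟨a1, ?_⟩
    rw [Real.log_exp]
    have := lr_sum_le L a1
    rw [← hc] at this
    linarith)
  refine h1.trans (le_of_eq ?_)
  rw [mul_assoc, ← Real.exp_add, ← Real.exp_mul]
  congr 2
  ring

/-- slices -/
theorem slices {α β : Type} [DecidableEq α] [DecidableEq β] (F : Finset (α × β)) (a : α → ℝ)
    {Λ : ℝ} (hΛ : 0 ≤ Λ) (ha : ∀ P ∈ F, 0 ≤ a P.1 ∧ a P.1 ≤ Λ) {A B : ℕ → ℝ} (hA0 : ∀ j, 0 ≤ A j)
    (hB0 : ∀ j, 0 ≤ B j)
    (hA : ∀ j : ℕ, ∀ G : Finset α, (∀ x ∈ G, (∃ y, (x, y) ∈ F) ∧ a x < j + 1) → (G.card : ℝ) ≤ A j)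
    (hB : ∀ (j : ℕ) (x : α), (j : ℝ) ≤ a x → a x < j + 1 → ∀ G : Finset β,
      (∀ y ∈ G, (x, y) ∈ F) → (G.card : ℝ) ≤ B j) {K : ℝ} (hK0 : 0 ≤ K)
    (hK : ∀ j : ℕ, (j : ℝ) ≤ Λ → A j * B j ≤ K) : (F.card : ℝ) ≤ (Λ + 1) * K := by
  classical
  obtain ⟨Fj, hFj⟩ : ∃ Fj : ℕ → Finset (α × β), Fj = fun j => F.filter fun P => ⌊a P.1⌋₊ = j :=
    ⟨_, rfl⟩
  have hsub : F ⊆ (Finset.range (⌊Λ⌋₊ + 1)).biUnion Fj := by
    intro P hP
    rw [Finset.mem_biUnion]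
    refine ⟨⌊a P.1⌋₊, Finset.mem_range.2 (Nat.lt_succ_of_le (Nat.floor_le_floor (ha P hP).2)), ?_⟩
    rw [hFj]
    exact Finset.mem_filter.2 ⟨hP, rfl⟩
  have hcard : ∀ j ∈ Finset.range (⌊Λ⌋₊ + 1), ((Fj j).card : ℝ) ≤ K := by
    intro j hj
    have hjΛ : (j : ℝ) ≤ Λ := by
      have := Nat.lt_succ_iff.1 (Finset.mem_range.1 hj)
      exact (Nat.le_floor_iff hΛ).1 this
    have hmem : ∀ P ∈ Fj j, P ∈ F ∧ (j : ℝ) ≤ a P.1 ∧ a P.1 < j + 1 := by
      intro P hP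
      rw [hFj] at hP
      obtain ⟨h1, h2⟩ := Finset.mem_filter.1 hP
      have h3 := Nat.floor_le (ha P h1).1
      have h4 := Nat.lt_floor_add_one (a P.1)
      rw [h2] at h3 h4
      exact ⟨h1, h3, h4⟩
    have h1 := Finset.card_le_mul_card_image (s := Fj j) (f := Prod.fst) ⌊B j⌋₊ (fun x hx => by
      obtain ⟨P, hP, hPx⟩ := Finset.mem_image.1 hx
      obtain ⟨g1, g2, g3⟩ := hmem P hP
      rw [hPx] at g2 g3
      refine Nat.le_floor ?_
      have h2 := hB j x g2 g3 (((Fj j).filter fun P => P.1 = x).image Prod.snd) (fun y hy => by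
        obtain ⟨Q, hQ, hQy⟩ := Finset.mem_image.1 hy
        obtain ⟨q1, q2⟩ := Finset.mem_filter.1 hQ
        have := (hmem Q q1).1
        rw [← hQy, ← q2]
        exact this)
      rw [Finset.card_image_of_injOn] at h2
      · exact h2
      · intro Q hQ Q' hQ' hqq
        rw [Finset.mem_coe, Finset.mem_filter] at hQ hQ'
        exact Prod.ext (hQ.2.trans hQ'.2.symm) hqq)
    have h2 := hA j ((Fj j).image Prod.fst) (fun x hx => by
      obtain ⟨P, hP, hPx⟩ := Finset.mem_image.1 hx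
      obtain ⟨g1, g2, g3⟩ := hmem P hP
      rw [hPx] at g3
      refine ⟨⟨P.2, ?_⟩, g3⟩
      rw [← hPx]
      exact g1)
    have h3 : ((Fj j).card : ℝ) ≤ (⌊B j⌋₊ : ℝ) * (((Fj j).image Prod.fst).card : ℝ) := by
      exact_mod_cast h1
    refine h3.trans (le_trans ?_ (hK j hjΛ))
    rw [mul_comm (A j)]
    exact mul_le_mul (Nat.floor_le (hB0 j)) h2 (Nat.cast_nonneg _) (hB0 j)
  have h1 : (F.card : ℝ) ≤ ∑ j ∈ Finset.range (⌊Λ⌋₊ + 1), ((Fj j).card : ℝ) := by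
    exact_mod_cast (Finset.card_le_card hsub).trans Finset.card_biUnion_le
  refine (h1.trans (Finset.sum_le_sum hcard)).trans ?_
  rw [Finset.sum_const, Finset.card_range, nsmul_eq_mul]
  refine mul_le_mul_of_nonneg_right ?_ hK0
  push_cast
  linarith [Nat.floor_le hΛ]

end Pool.Agent.TH893.PG
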