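import Pool.Agent.TH893.PG.All

/-!
Pairs of points of the projective line over the rationals, of all heights, by the radical of the
product of the values of two systems of linear forms (helper893).
-/

set_option autoImplicit false

namespace Pool.Agent.TH893.PG

open Finset
open Pool.Agent.TH867.QF

theorem lin_exp {ε Λ : ℝ} (hε : 0 < ε) (hΛ : 0 ≤ Λ) :
    Λ + 1 ≤ (1 / ε + 1) * Real.exp (ε * Λ) := by
  have h1 : ε * Λ + 1 ≤ Real.exp (ε * Λ) := Real.add_one_le_exp _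
  have h2 : 1 ≤ Real.exp (ε * Λ) := Real.one_le_exp (by positivity)
  have h3 : Λ ≤ 1 / ε * Real.exp (ε * Λ) := by
    rw [one_div, ← div_eq_inv_mul, le_div_iff₀ hε]
    linarith
  linarith

/-- the exponent -/
theorem expo {q r Λ j θ : ℝ} (hq : 0 < q) (hr : 0 < r) (hj : 0 ≤ j) (hjΛ : j ≤ Λ)
    (h1 : 2 / q ≤ θ) (h2 : 2 / (3 * q) + 2 / r ≤ θ) :
    (j ≤ Λ / 3 → 2 / q * j + 2 / r * Λ ≤ θ * Λ) ∧
    (Λ / 3 < j → 2 / q * j + 3 / r * (Λ - j) ≤ θ * Λ) := by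
  have hΛ : 0 ≤ Λ := hj.trans hjΛ
  have e1 : 2 / (3 * q) = 2 / q / 3 := by field_simp
  rw [e1] at h2
  have e2 : 3 / r = 3 / 2 * (2 / r) := by ring
  rw [e2]
  obtain ⟨a, ha⟩ : ∃ a, a = 2 / q := ⟨_, rfl⟩
  obtain ⟨b, hb⟩ : ∃ b, b = 2 / r := ⟨_, rfl⟩
  have ha0 : 0 < a := by rw [ha]; positivity
  have hb0 : 0 < b := by rw [hb]; positivity
  rw [← ha, ← hb] at h2 ⊢
  rw [← ha] at h1
  constructor
  · intro h
    have h3 : a * j ≤ a * (Λ / 3) := mul_le_mul_of_nonneg_left h ha0.le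
    have h4 : (a / 3 + b) * Λ ≤ θ * Λ := mul_le_mul_of_nonneg_right h2 hΛ
    linarith
  · intro h
    rcases le_total (3 / 2 * b) a with h5 | h5
    · have h6 : a * Λ ≤ θ * Λ := mul_le_mul_of_nonneg_right h1 hΛ
      have h7 : 3 / 2 * b * (Λ - j) ≤ a * (Λ - j) := mul_le_mul_of_nonneg_right h5 (by linarith)
      linarith
    · have h6 : (a / 3 + b) * Λ ≤ θ * Λ := mul_le_mul_of_nonneg_right h2 hΛ
      have h7 : 0 ≤ (3 / 2 * b - a) * (j - Λ / 3) := mul_nonneg (by linarith) (by linarith)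
      linarith

/-- **pairs of points by the radical of the product of all the values** -/
theorem pairs_upper {d e : ℕ} (L : Fm (d + 3)) (L' : Fm (e + 3)) (ε θ : ℝ) (hε : 0 < ε)
    (h1 : 2 / ((d : ℝ) + 3) ≤ θ) (h2 : 2 / (3 * ((d : ℝ) + 3)) + 2 / ((e : ℝ) + 3) ≤ θ) :
    ∃ D : ℝ, 0 < D ∧
    ∀ Λ : ℝ, 0 ≤ Λ → ∀ F : Finset ((ℤ × ℤ) × (ℤ × ℤ)), (∀ P ∈ F, Pt L P.1 ∧ Pt L' P.2 ∧
      ∑ q ∈ (Np L P.1).primeFactors ∪ (Np L' P.2).primeFactors, Real.log (q : ℝ) ≤ Λ) →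
    (F.card : ℝ) ≤ D * Real.exp ((θ + ε) * Λ) := by
  classical
  obtain ⟨δ, hδ⟩ : ∃ δ, δ = ε / 3 := ⟨_, rfl⟩
  have hδ0 : 0 < δ := by rw [hδ]; positivity
  obtain ⟨D1, hD1, hA⟩ := line_rad L δ hδ0
  obtain ⟨D2, hD2, hfree⟩ := free_all L' δ hδ0
  obtain ⟨D3, hD3, hB⟩ := line_rad L' δ hδ0
  have hq0 : (0 : ℝ) < (d : ℝ) + 3 := by positivity
  have hr0 : (0 : ℝ) < (e : ℝ) + 3 := by positivity
  obtain ⟨E, hE⟩ : ∃ E : ℝ, E = D1 * (D2 + D3) * Real.exp (2 / ((d : ℝ) + 3) + 2 * δ) := ⟨_, rfl⟩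
  have hE0 : 0 < E := by rw [hE]; positivity
  refine ⟨(1 / δ + 1) * E, by positivity, fun Λ hΛ F hF => ?_⟩
  have hlog0 : ∀ q : ℕ, 0 ≤ Real.log (q : ℝ) := fun q => Real.log_natCast_nonneg q
  have ha : ∀ P ∈ F, 0 ≤ lN L P.1 ∧ lN L P.1 ≤ Λ := by
    intro P hP
    refine ⟨lN_nonneg L _, le_trans ?_ (hF P hP).2.2⟩
    exact Finset.sum_le_sum_of_subset_of_nonneg Finset.subset_union_left fun q _ _ => hlog0 q
  obtain ⟨A, hAd⟩ : ∃ A : ℕ → ℝ, A = fun j : ℕ =>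
      D1 * Real.exp ((2 / ((d : ℝ) + 3) + δ) * (j + 1)) := ⟨_, rfl⟩
  obtain ⟨B, hBd⟩ : ∃ B : ℕ → ℝ, B = fun j : ℕ => if (j : ℝ) ≤ Λ / 3 then
      D3 * Real.exp ((2 / ((e : ℝ) + 3) + δ) * Λ) else
      D2 * Real.exp ((3 / ((e : ℝ) + 3) + δ) * (Λ - j)) * Real.exp (δ * (j + 1)) := ⟨_, rfl⟩
  obtain ⟨K, hK⟩ : ∃ K : ℝ, K = E * Real.exp ((θ + 2 * δ) * Λ) := ⟨_, rfl⟩
  have hA0 : ∀ j, 0 ≤ A j := fun j => by rw [hAd]; positivity
  have hB0 : ∀ j, 0 ≤ B j := fun j => by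
    rw [hBd]
    simp only
    split_ifs <;> positivity
  have hmain := slices F (fun x => lN L x) hΛ ha hA0 hB0 (fun j G hG => by
    rw [hAd]
    refine hA (j + 1) (by positivity) G fun x hx => ?_
    obtain ⟨⟨y, hy⟩, hlt⟩ := hG x hx
    exact ⟨(hF _ hy).1, hlt.le⟩) (fun j x hjx hxj G hG => by
    rcases G.eq_empty_or_nonempty with he | ⟨y0, hy0⟩
    · rw [he, Finset.card_empty, Nat.cast_zero]
      exact hB0 j
    have hjΛ : (j : ℝ) ≤ Λ := hjx.trans (ha _ (hG y0 hy0)).2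
    rw [hBd]
    simp only
    split_ifs with hc
    · refine hB Λ hΛ G fun y hy => ?_
      obtain ⟨g1, g2, g3⟩ := hF _ (hG y hy)
      refine ⟨g2, le_trans ?_ g3⟩
      exact Finset.sum_le_sum_of_subset_of_nonneg Finset.subset_union_right fun q _ _ => hlog0 q
    · obtain ⟨T, hT⟩ : ∃ T, T = (Np L x).primeFactors := ⟨_, rfl⟩
      have hTp : ∀ q ∈ T, q.Prime := fun q hq => by
        rw [hT] at hq; exact Nat.prime_of_mem_primeFactors hq
      have hTpos : 0 < ∏ q ∈ T, q := Finset.prod_pos fun q hq => (hTp q hq).pos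
      have hTs : ∑ q ∈ T, Real.log (q : ℝ) = lN L x := by rw [hT]; rfl
      have h9 := hfree (Real.exp (Λ - j)) (Real.exp (j + 1)) (Real.one_le_exp (by linarith))
        (Real.one_le_exp (by positivity)) T hTp (by
          rw [← Real.log_le_log_iff (by exact_mod_cast hTpos) (Real.exp_pos _),
            log_prod_primes hTp, Real.log_exp, hTs]
          exact hxj.le) G (fun y hy => by
          obtain ⟨g1, g2, g3⟩ := hF _ (hG y hy)
          refine ⟨g2, ?_⟩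
          rw [Real.log_exp]
          have e1 : (Np L x).primeFactors ∪ (Np L' y).primeFactors =
              (Np L x).primeFactors ∪ ((Np L' y).primeFactors \ T) := by
            rw [hT, Finset.union_sdiff_self_eq_union]
          have e2 : Disjoint (Np L x).primeFactors ((Np L' y).primeFactors \ T) := by
            rw [hT]; exact Finset.disjoint_sdiff
          simp only at g3
          rw [e1, Finset.sum_union e2, ← hT, hTs] at g3
          linarith)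
      refine h9.trans (le_of_eq ?_)
      rw [← Real.exp_mul, ← Real.exp_mul]
      congr 2
      · rw [mul_comm (Λ - (j : ℝ))]
      · rw [mul_comm])
    (K := K) (by rw [hK]; positivity) (fun j hjΛ => by
      obtain ⟨x1, x2⟩ := expo (q := (d : ℝ) + 3) (r := (e : ℝ) + 3) hq0 hr0
        (Nat.cast_nonneg j) hjΛ h1 h2
      have hj0 : (0 : ℝ) ≤ j := Nat.cast_nonneg j
      have hδj : δ * j ≤ δ * Λ := mul_le_mul_of_nonneg_left hjΛ hδ0.le
      rw [hAd, hBd, hK, hE]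
      simp only
      split_ifs with hc
      · have h3 := x1 hc
        calc D1 * Real.exp ((2 / ((d : ℝ) + 3) + δ) * (j + 1)) *
            (D3 * Real.exp ((2 / ((e : ℝ) + 3) + δ) * Λ)) =
            D1 * D3 * Real.exp ((2 / ((d : ℝ) + 3) + δ) * (j + 1) +
              (2 / ((e : ℝ) + 3) + δ) * Λ) := by rw [Real.exp_add]; ring
          _ ≤ D1 * (D2 + D3) * Real.exp ((2 / ((d : ℝ) + 3) + 2 * δ) + (θ + 2 * δ) * Λ) := by
              refine mul_le_mul (mul_le_mul_of_nonneg_left (by linarith) hD1.le) ?_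
                (Real.exp_pos _).le (by positivity)
              refine Real.exp_le_exp.2 ?_
              have e1 : (2 / ((d : ℝ) + 3) + δ) * (j + 1) + (2 / ((e : ℝ) + 3) + δ) * Λ =
                (2 / ((d : ℝ) + 3) * j + 2 / ((e : ℝ) + 3) * Λ) + 2 / ((d : ℝ) + 3) + δ +
                  δ * j + δ * Λ := by ring
              rw [e1]
              linarith
          _ = _ := by rw [Real.exp_add]; ring
      · have h3 := x2 (not_le.1 hc)
        calc D1 * Real.exp ((2 / ((d : ℝ) + 3) + δ) * (j + 1)) *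
            (D2 * Real.exp ((3 / ((e : ℝ) + 3) + δ) * (Λ - j)) * Real.exp (δ * (j + 1))) =
            D1 * D2 * Real.exp ((2 / ((d : ℝ) + 3) + δ) * (j + 1) +
              (3 / ((e : ℝ) + 3) + δ) * (Λ - j) + δ * (j + 1)) := by
              rw [Real.exp_add, Real.exp_add]; ring
          _ ≤ D1 * (D2 + D3) * Real.exp ((2 / ((d : ℝ) + 3) + 2 * δ) + (θ + 2 * δ) * Λ) := by
              refine mul_le_mul (mul_le_mul_of_nonneg_left (by linarith) hD1.le) ?_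
                (Real.exp_pos _).le (by positivity)
              refine Real.exp_le_exp.2 ?_
              have e1 : (2 / ((d : ℝ) + 3) + δ) * (j + 1) +
                (3 / ((e : ℝ) + 3) + δ) * (Λ - j) + δ * (j + 1) =
                (2 / ((d : ℝ) + 3) * j + 3 / ((e : ℝ) + 3) * (Λ - j)) + 2 / ((d : ℝ) + 3) +
                  2 * δ + δ * j + δ * Λ := by ring
              rw [e1]
              linarith
          _ = _ := by rw [Real.exp_add]; ring)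
  refine hmain.trans ?_
  calc (Λ + 1) * K ≤ ((1 / δ + 1) * Real.exp (δ * Λ)) * K :=
        mul_le_mul_of_nonneg_right (lin_exp hδ0 hΛ) (by rw [hK]; positivity)
    _ = (1 / δ + 1) * E * (Real.exp (δ * Λ) * Real.exp ((θ + 2 * δ) * Λ)) := by rw [hK]; ring
    _ = _ := by
        rw [← Real.exp_add, hδ]
        congr 2
        ring

/-- **pairs of points by the product of the two radicals** -/
theorem pairs_sum {d e : ℕ} (L : Fm (d + 3)) (L' : Fm (e + 3)) (ε θ : ℝ) (hε : 0 < ε)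
    (h1 : 2 / ((d : ℝ) + 3) ≤ θ) (h2 : 2 / ((e : ℝ) + 3) ≤ θ) :
    ∃ D : ℝ, 0 < D ∧
    ∀ Λ : ℝ, 0 ≤ Λ → ∀ F : Finset ((ℤ × ℤ) × (ℤ × ℤ)), (∀ P ∈ F, Pt L P.1 ∧ Pt L' P.2 ∧
      lN L P.1 + lN L' P.2 ≤ Λ) →
    (F.card : ℝ) ≤ D * Real.exp ((θ + ε) * Λ) := by
  classical
  obtain ⟨δ, hδ⟩ : ∃ δ, δ = ε / 3 := ⟨_, rfl⟩
  have hδ0 : 0 < δ := by rw [hδ]; positivity
  obtain ⟨D1, hD1, hA⟩ := line_rad L δ hδ0
  obtain ⟨D3, hD3, hB⟩ := line_rad L' δ hδ0
  obtain ⟨E, hE⟩ : ∃ E : ℝ, E = D1 * D3 * Real.exp (2 / ((d : ℝ) + 3) + δ) := ⟨_, rfl⟩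
  have hE0 : 0 < E := by rw [hE]; positivity
  refine ⟨(1 / δ + 1) * E, by positivity, fun Λ hΛ F hF => ?_⟩
  have ha : ∀ P ∈ F, 0 ≤ lN L P.1 ∧ lN L P.1 ≤ Λ := by
    intro P hP
    have := (hF P hP).2.2
    exact ⟨lN_nonneg L _, by linarith [lN_nonneg L' P.2]⟩
  obtain ⟨A, hAd⟩ : ∃ A : ℕ → ℝ, A = fun j : ℕ =>
      D1 * Real.exp ((2 / ((d : ℝ) + 3) + δ) * (j + 1)) := ⟨_, rfl⟩
  obtain ⟨B, hBd⟩ : ∃ B : ℕ → ℝ, B = fun j : ℕ =>
      D3 * Real.exp ((2 / ((e : ℝ) + 3) + δ) * (Λ - j)) := ⟨_, rfl⟩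
  obtain ⟨K, hK⟩ : ∃ K : ℝ, K = E * Real.exp ((θ + 2 * δ) * Λ) := ⟨_, rfl⟩
  have hA0 : ∀ j, 0 ≤ A j := fun j => by rw [hAd]; positivity
  have hB0 : ∀ j, 0 ≤ B j := fun j => by rw [hBd]; positivity
  have hmain := slices F (fun x => lN L x) hΛ ha hA0 hB0 (fun j G hG => by
    rw [hAd]
    refine hA (j + 1) (by positivity) G fun x hx => ?_
    obtain ⟨⟨y, hy⟩, hlt⟩ := hG x hx
    exact ⟨(hF _ hy).1, hlt.le⟩) (fun j x hjx hxj G hG => by
    rcases G.eq_empty_or_nonempty with he | ⟨y0, hy0⟩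
    · rw [he, Finset.card_empty, Nat.cast_zero]
      exact hB0 j
    have hjΛ : (j : ℝ) ≤ Λ := hjx.trans (ha _ (hG y0 hy0)).2
    rw [hBd]
    refine hB (Λ - j) (by linarith) G fun y hy => ?_
    obtain ⟨g1, g2, g3⟩ := hF _ (hG y hy)
    simp only at g3
    exact ⟨g2, by linarith⟩)
    (K := K) (by rw [hK]; positivity) (fun j hjΛ => by
      have hj0 : (0 : ℝ) ≤ j := Nat.cast_nonneg j
      have hδj : 0 ≤ δ * Λ := by positivity
      rw [hAd, hBd, hK, hE]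
      simp only
      have h3 : 2 / ((d : ℝ) + 3) * j + 2 / ((e : ℝ) + 3) * (Λ - j) ≤ θ * Λ := by
        have e1 : 2 / ((d : ℝ) + 3) * j ≤ θ * j := mul_le_mul_of_nonneg_right h1 hj0
        have e2 : 2 / ((e : ℝ) + 3) * (Λ - j) ≤ θ * (Λ - j) :=
          mul_le_mul_of_nonneg_right h2 (by linarith)
        linarith
      calc D1 * Real.exp ((2 / ((d : ℝ) + 3) + δ) * (j + 1)) *
            (D3 * Real.exp ((2 / ((e : ℝ) + 3) + δ) * (Λ - j))) =
            D1 * D3 * Real.exp ((2 / ((d : ℝ) + 3) + δ) * (j + 1) +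
              (2 / ((e : ℝ) + 3) + δ) * (Λ - j)) := by rw [Real.exp_add]; ring
          _ ≤ D1 * D3 * Real.exp ((2 / ((d : ℝ) + 3) + δ) + (θ + 2 * δ) * Λ) := by
              refine mul_le_mul_of_nonneg_left ?_ (by positivity)
              refine Real.exp_le_exp.2 ?_
              have e1 : (2 / ((d : ℝ) + 3) + δ) * (j + 1) + (2 / ((e : ℝ) + 3) + δ) * (Λ - j) =
                (2 / ((d : ℝ) + 3) * j + 2 / ((e : ℝ) + 3) * (Λ - j)) + 2 / ((d : ℝ) + 3) + δ +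
                  δ * Λ := by ring
              rw [e1]
              linarith
          _ = _ := by rw [Real.exp_add]; ring)
  refine hmain.trans ?_
  calc (Λ + 1) * K ≤ ((1 / δ + 1) * Real.exp (δ * Λ)) * K :=
        mul_le_mul_of_nonneg_right (lin_exp hδ0 hΛ) (by rw [hK]; positivity)
    _ = (1 / δ + 1) * E * (Real.exp (δ * Λ) * Real.exp ((θ + 2 * δ) * Λ)) := by rw [hK]; ring
    _ = _ := by
        rw [← Real.exp_add, hδ]
        congr 2
        ring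

end Pool.Agent.TH893.PG
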