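import Pool.Agent.TH893.PG.Poly
import Pool.Agent.TH893.PG.Pairs

/-!
Pairs of points of the projective line over the rationals, the second of bounded height, by the
radical of the product of all the values (helper893).
-/

set_option autoImplicit false

namespace Pool.Agent.TH893.PG

open Finset
open Pool.Agent.TH867.QF

/-- the second points for a given first one -/
theorem fibre_poly {d e : ℕ} (L : Fm (d + 3)) (L' : Fm (e + 3)) (δ : ℝ) (hδ : 0 < δ) :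
    ∃ D : ℝ, 0 < D ∧ ∀ Λ H : ℝ, 0 ≤ H → ∀ (x : ℤ × ℤ) (u : ℕ), (u : ℝ) ≤ lN L x →
      lN L x < u + 1 → (u : ℝ) ≤ Λ → ∀ G : Finset (ℤ × ℤ), (∀ y ∈ G, Pt L' y ∧
        Real.log (ht y) ≤ H ∧ ∑ q ∈ (Np L x).primeFactors ∪ (Np L' y).primeFactors,
          Real.log (q : ℝ) ≤ Λ) →
      (G.card : ℝ) ≤ D * Real.exp ((2 / ((e : ℝ) + 3) + δ) * (Λ - u) + δ * H + δ * (u + 1)) := by
  classical
  obtain ⟨D, hD, hfree⟩ := free_poly L' δ hδ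
  refine ⟨D, hD, fun Λ H hH x u hux hxu huΛ G hG => ?_⟩
  obtain ⟨T, hT⟩ : ∃ T, T = (Np L x).primeFactors := ⟨_, rfl⟩
  have hTp : ∀ q ∈ T, q.Prime := fun q hq => by
    rw [hT] at hq; exact Nat.prime_of_mem_primeFactors hq
  have hTpos : 0 < ∏ q ∈ T, q := Finset.prod_pos fun q hq => (hTp q hq).pos
  have hTs : ∑ q ∈ T, Real.log (q : ℝ) = lN L x := by rw [hT]; rfl
  refine hfree (Λ - u) H (u + 1) (by linarith) hH T hTp (by
    rw [← Real.log_le_iff_le_exp (by exact_mod_cast hTpos), log_prod_primes hTp, hTs]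
    exact hxu.le) G (fun y hy => ?_)
  obtain ⟨g1, g2, g3⟩ := hG y hy
  refine ⟨g1, g2, ?_⟩
  have e1 : (Np L x).primeFactors ∪ (Np L' y).primeFactors =
      (Np L x).primeFactors ∪ ((Np L' y).primeFactors \ T) := by
    rw [hT, Finset.union_sdiff_self_eq_union]
  have e2 : Disjoint (Np L x).primeFactors ((Np L' y).primeFactors \ T) := by
    rw [hT]; exact Finset.disjoint_sdiff
  rw [e1, Finset.sum_union e2, ← hT, hTs] at g3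
  linarith

/-- **pairs of points, one of bounded height, by the radical of the product of all the values** -/
theorem one_upper {d e : ℕ} (L : Fm (d + 3)) (L' : Fm (e + 3)) (ε θ : ℝ) (hε : 0 < ε)
    (h1 : 2 / ((d : ℝ) + 3) ≤ θ) (h2 : 2 / ((e : ℝ) + 3) ≤ θ) :
    ∃ D : ℝ, 0 < D ∧
    ∀ Λ H : ℝ, 0 ≤ Λ → 0 ≤ H → ∀ F : Finset ((ℤ × ℤ) × (ℤ × ℤ)), (∀ P ∈ F, Pt L P.1 ∧
      Pt L' P.2 ∧ Real.log (ht P.2) ≤ H ∧
      ∑ q ∈ (Np L P.1).primeFactors ∪ (Np L' P.2).primeFactors, Real.log (q : ℝ) ≤ Λ) →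
    (F.card : ℝ) ≤ D * Real.exp ((θ + ε) * Λ + ε * H) := by
  classical
  obtain ⟨δ, hδ⟩ : ∃ δ, δ = ε / 3 := ⟨_, rfl⟩
  have hδ0 : 0 < δ := by rw [hδ]; positivity
  obtain ⟨D1, hD1, hA⟩ := line_rad L δ hδ0
  obtain ⟨D2, hD2, hB⟩ := fibre_poly L L' δ hδ0
  obtain ⟨E, hE⟩ : ∃ E : ℝ, E = D1 * D2 * Real.exp (2 / ((d : ℝ) + 3) + 2 * δ) := ⟨_, rfl⟩
  have hE0 : 0 < E := by rw [hE]; positivity
  refine ⟨(1 / δ + 1) * E, by positivity, fun Λ H hΛ hH F hF => ?_⟩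
  have hlog0 : ∀ q : ℕ, 0 ≤ Real.log (q : ℝ) := fun q => Real.log_natCast_nonneg q
  have ha : ∀ P ∈ F, 0 ≤ lN L P.1 ∧ lN L P.1 ≤ Λ := by
    intro P hP
    refine ⟨lN_nonneg L _, le_trans ?_ (hF P hP).2.2.2⟩
    exact Finset.sum_le_sum_of_subset_of_nonneg Finset.subset_union_left fun q _ _ => hlog0 q
  obtain ⟨A, hAd⟩ : ∃ A : ℕ → ℝ, A = fun u : ℕ =>
      D1 * Real.exp ((2 / ((d : ℝ) + 3) + δ) * (u + 1)) := ⟨_, rfl⟩
  obtain ⟨B, hBd⟩ : ∃ B : ℕ → ℝ, B = fun u : ℕ =>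
      D2 * Real.exp ((2 / ((e : ℝ) + 3) + δ) * (Λ - u) + δ * H + δ * (u + 1)) := ⟨_, rfl⟩
  obtain ⟨K, hK⟩ : ∃ K : ℝ, K = E * Real.exp ((θ + 2 * δ) * Λ + δ * H) := ⟨_, rfl⟩
  have hA0 : ∀ j, 0 ≤ A j := fun j => by rw [hAd]; positivity
  have hB0 : ∀ j, 0 ≤ B j := fun j => by rw [hBd]; positivity
  have hmain := slices F (fun x => lN L x) hΛ ha hA0 hB0 (fun u G hG => by
    rw [hAd]
    refine hA (u + 1) (by positivity) G fun x hx => ?_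
    obtain ⟨⟨y, hy⟩, hlt⟩ := hG x hx
    exact ⟨(hF _ hy).1, hlt.le⟩) (fun u x hux hxu G hG => by
    rcases G.eq_empty_or_nonempty with he | ⟨y0, hy0⟩
    · rw [he, Finset.card_empty, Nat.cast_zero]
      exact hB0 u
    have huΛ : (u : ℝ) ≤ Λ := hux.trans (ha _ (hG y0 hy0)).2
    rw [hBd]
    exact hB Λ H hH x u hux hxu huΛ G fun y hy => (hF _ (hG y hy)).2)
    (K := K) (by rw [hK]; positivity) (fun u huΛ => by
      have hu0 : (0 : ℝ) ≤ u := Nat.cast_nonneg u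
      have hδu : δ * u ≤ δ * Λ := mul_le_mul_of_nonneg_left huΛ hδ0.le
      rw [hAd, hBd, hK, hE]
      simp only
      have h3 : 2 / ((d : ℝ) + 3) * u + 2 / ((e : ℝ) + 3) * (Λ - u) ≤ θ * Λ := by
        have e1 : 2 / ((d : ℝ) + 3) * u ≤ θ * u := mul_le_mul_of_nonneg_right h1 hu0
        have e2 : 2 / ((e : ℝ) + 3) * (Λ - u) ≤ θ * (Λ - u) :=
          mul_le_mul_of_nonneg_right h2 (by linarith)
        linarith
      calc D1 * Real.exp ((2 / ((d : ℝ) + 3) + δ) * (u + 1)) *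
            (D2 * Real.exp ((2 / ((e : ℝ) + 3) + δ) * (Λ - u) + δ * H + δ * (u + 1))) =
            D1 * D2 * Real.exp ((2 / ((d : ℝ) + 3) + δ) * (u + 1) +
              ((2 / ((e : ℝ) + 3) + δ) * (Λ - u) + δ * H + δ * (u + 1))) := by
              rw [Real.exp_add ((2 / ((d : ℝ) + 3) + δ) * (u + 1))]; ring
          _ ≤ D1 * D2 * Real.exp ((2 / ((d : ℝ) + 3) + 2 * δ) + ((θ + 2 * δ) * Λ + δ * H)) := by
              refine mul_le_mul_of_nonneg_left ?_ (by positivity)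
              refine Real.exp_le_exp.2 ?_
              have e1 : (2 / ((d : ℝ) + 3) + δ) * (u + 1) +
                ((2 / ((e : ℝ) + 3) + δ) * (Λ - u) + δ * H + δ * (u + 1)) =
                (2 / ((d : ℝ) + 3) * u + 2 / ((e : ℝ) + 3) * (Λ - u)) + 2 / ((d : ℝ) + 3) +
                  2 * δ + δ * u + δ * Λ + δ * H := by ring
              rw [e1]
              linarith
          _ = _ := by rw [Real.exp_add]; ring)
  refine hmain.trans ?_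
  have hδH : 0 ≤ δ * H := by positivity
  calc (Λ + 1) * K ≤ ((1 / δ + 1) * Real.exp (δ * Λ)) * K :=
        mul_le_mul_of_nonneg_right (lin_exp hδ0 hΛ) (by rw [hK]; positivity)
    _ = (1 / δ + 1) * E * (Real.exp (δ * Λ) * Real.exp ((θ + 2 * δ) * Λ + δ * H)) := by
        rw [hK]; ring
    _ = (1 / δ + 1) * E * Real.exp ((θ + ε) * Λ + δ * H) := by
        rw [← Real.exp_add, hδ]
        congr 2
        ring
    _ ≤ _ := by
        refine mul_le_mul_of_nonneg_left (Real.exp_le_exp.2 ?_) (by positivity)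
        rw [hδ]
        have : 0 ≤ ε * H := by positivity
        linarith

theorem box_num1 {a b q u L1 Λ : ℝ} (hab : b ≤ a) (haq : a * q = 2) (hu : u ≤ q * L1) :
    a * u + b * (Λ - u) ≤ 2 * L1 + b * (Λ - q * L1) := by
  have e2 : (a - b) * u ≤ (a - b) * (q * L1) := mul_le_mul_of_nonneg_left hu (by linarith)
  have e3 : a * (q * L1) = 2 * L1 := by rw [← mul_assoc, haq]
  have e4 : (a - b) * (q * L1) = a * (q * L1) - b * (q * L1) := by ring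
  have e5 : (a - b) * u = a * u - b * u := by ring
  have e6 : b * (Λ - u) = b * Λ - b * u := by ring
  have e7 : b * (Λ - q * L1) = b * Λ - b * (q * L1) := by ring
  rw [e6, e7]
  rw [e4, e5, e3] at e2
  linarith

theorem box_num2 {b q r κ c L1 L2 Λ : ℝ} (hbr : b * r = 2)
    (hΛ : Λ = (q - κ) * L1 + (r - κ) * L2 + c) :
    2 * L1 + b * (Λ - q * L1) = (2 - b * κ) * (L1 + L2) + b * c := by
  have e1 : b * (Λ - q * L1) = (b * r) * L2 - b * κ * (L1 + L2) + b * c := by rw [hΛ]; ring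
  rw [e1, hbr]
  ring

theorem box_num3 {q r κ c L1 L2 Λ w : ℝ} (hκ0 : 0 ≤ κ) (hq : 0 ≤ q) (hr : 0 ≤ r) (hL1 : 0 ≤ L1)
    (hL2 : 0 ≤ L2) (hΛ : Λ = (q - κ) * L1 + (r - κ) * L2 + c) (hw : w = 3 * (q + r) + 1) :
    3 * Λ + L2 ≤ w * (L1 + L2) + 3 * c := by
  have e1 : 0 ≤ κ * L1 := mul_nonneg hκ0 hL1
  have e2 : 0 ≤ κ * L2 := mul_nonneg hκ0 hL2
  have e3 : 0 ≤ r * L1 := mul_nonneg hr hL1
  have e4 : 0 ≤ q * L2 := mul_nonneg hq hL2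
  have e5 : w * (L1 + L2) + 3 * c - (3 * Λ + L2) =
      3 * (κ * L1) + 3 * (κ * L2) + 3 * (r * L1) + 3 * (q * L2) + L1 := by
    rw [hΛ, hw]; ring
  linarith

/-- the two cases -/
theorem box_case1 {D1 D2 a b δ q L1 L2 Λ u M : ℝ} (hD1 : 0 < D1) (hD2 : 0 < D2) (hδ0 : 0 < δ)
    (hab : b ≤ a) (haq : a * q = 2) (hu : u ≤ q * L1) (huΛ : u ≤ Λ)
    (hM : M = 2 * L1 + b * (Λ - q * L1) + a + 2 + δ * (2 * Λ + L2 + 2)) :
    D1 * Real.exp ((a + δ) * (u + 1)) *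
      (D2 * Real.exp ((b + δ) * (Λ - u) + δ * L2 + δ * (u + 1))) ≤
      (D1 + 9) * D2 * Real.exp M := by
  have h3 := box_num1 (Λ := Λ) hab haq hu
  have hδu : δ * u ≤ δ * Λ := mul_le_mul_of_nonneg_left huΛ hδ0.le
  have e0 : D1 * Real.exp ((a + δ) * (u + 1)) *
      (D2 * Real.exp ((b + δ) * (Λ - u) + δ * L2 + δ * (u + 1))) =
      D1 * D2 * Real.exp ((a + δ) * (u + 1) + ((b + δ) * (Λ - u) + δ * L2 + δ * (u + 1))) := by
    rw [Real.exp_add ((a + δ) * (u + 1))]; ring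
  rw [e0]
  refine mul_le_mul (mul_le_mul_of_nonneg_right (by linarith) hD2.le) ?_
    (Real.exp_pos _).le (by positivity)
  refine Real.exp_le_exp.2 ?_
  have e1 : (a + δ) * (u + 1) + ((b + δ) * (Λ - u) + δ * L2 + δ * (u + 1)) =
    (a * u + b * (Λ - u)) + a + 2 * δ + δ * u + δ * Λ + δ * L2 := by ring
  have e2 : δ * (2 * Λ + L2 + 2) = 2 * (δ * Λ) + δ * L2 + 2 * δ := by ring
  rw [e1, hM, e2]
  linarith

theorem box_case2 {D1 D2 a b δ q L1 L2 Λ u M : ℝ} (hD1 : 0 < D1) (hD2 : 0 < D2) (hδ0 : 0 < δ)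
    (ha : 0 ≤ a) (hb : 0 ≤ b) (hu : q * L1 < u) (hΛ : 0 ≤ Λ)
    (hM : M = 2 * L1 + b * (Λ - q * L1) + a + 2 + δ * (2 * Λ + L2 + 2)) :
    9 * Real.exp (2 * L1) *
      (D2 * Real.exp ((b + δ) * (Λ - u) + δ * L2 + δ * (u + 1))) ≤
      (D1 + 9) * D2 * Real.exp M := by
  have h3 : b * (Λ - u) ≤ b * (Λ - q * L1) := mul_le_mul_of_nonneg_left (by linarith) hb
  have hδΛ : 0 ≤ δ * Λ := mul_nonneg hδ0.le hΛ
  have e0 : 9 * Real.exp (2 * L1) *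
      (D2 * Real.exp ((b + δ) * (Λ - u) + δ * L2 + δ * (u + 1))) =
      9 * D2 * Real.exp (2 * L1 + ((b + δ) * (Λ - u) + δ * L2 + δ * (u + 1))) := by
    rw [Real.exp_add (2 * L1)]; ring
  rw [e0]
  refine mul_le_mul (mul_le_mul_of_nonneg_right (by linarith) hD2.le) ?_
    (Real.exp_pos _).le (by positivity)
  refine Real.exp_le_exp.2 ?_
  have e1 : 2 * L1 + ((b + δ) * (Λ - u) + δ * L2 + δ * (u + 1)) =
    2 * L1 + b * (Λ - u) + δ + δ * Λ + δ * L2 := by ring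
  have e2 : δ * (2 * Λ + L2 + 2) = 2 * (δ * Λ) + δ * L2 + 2 * δ := by ring
  rw [e1, hM, e2]
  linarith

theorem small_h {d : ℕ} (L : Fm (d + 3)) {L1 : ℝ} (hL1 : 0 ≤ L1) (G : Finset (ℤ × ℤ))
    (hG : ∀ x ∈ G, Pt L x ∧ Real.log (ht x) ≤ L1) : (G.card : ℝ) ≤ 9 * Real.exp (2 * L1) := by
  have h1 := small_height L L1 G hG
  have h2 : (G.card : ℝ) ≤ (2 * (⌊Real.exp L1⌋₊ : ℝ) + 1) ^ 2 := by exact_mod_cast h1
  refine h2.trans ?_
  have h3 : (⌊Real.exp L1⌋₊ : ℝ) ≤ Real.exp L1 := Nat.floor_le (Real.exp_pos _).le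
  have h4 : 1 ≤ Real.exp L1 := Real.one_le_exp hL1
  have h5 : 2 * (⌊Real.exp L1⌋₊ : ℝ) + 1 ≤ 3 * Real.exp L1 := by linarith
  have h6 : Real.exp (2 * L1) = Real.exp L1 ^ 2 := by
    rw [← Real.exp_nat_mul]; norm_num
  rw [h6]
  calc (2 * (⌊Real.exp L1⌋₊ : ℝ) + 1) ^ 2 ≤ (3 * Real.exp L1) ^ 2 :=
        pow_le_pow_left₀ (by positivity) h5 2
    _ = _ := by ring

/-- the count for a fixed bound `Λ` -/
theorem box_count {d e : ℕ} (L : Fm (d + 3)) (L' : Fm (e + 3)) {a b δ q : ℝ} (hδ0 : 0 < δ)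
    (ha : a = 2 / ((d : ℝ) + 3)) (hb : b = 2 / ((e : ℝ) + 3)) (hq : q = (d : ℝ) + 3)
    (hde : d ≤ e) : ∃ D : ℝ, 0 < D ∧ ∀ Λ L1 L2 : ℝ, 0 ≤ Λ → 0 ≤ L1 → 0 ≤ L2 →
      ∀ F : Finset ((ℤ × ℤ) × (ℤ × ℤ)), (∀ P ∈ F, Pt L P.1 ∧
      Pt L' P.2 ∧ Real.log (ht P.1) ≤ L1 ∧ Real.log (ht P.2) ≤ L2 ∧
      ∑ q ∈ (Np L P.1).primeFactors ∪ (Np L' P.2).primeFactors, Real.log (q : ℝ) ≤ Λ) →
    (F.card : ℝ) ≤ (Λ + 1) * (D *
      Real.exp (2 * L1 + b * (Λ - q * L1) + a + 2 + δ * (2 * Λ + L2 + 2))) := by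
  classical
  have hdeR : (d : ℝ) ≤ e := by exact_mod_cast hde
  have hd0 : (0 : ℝ) ≤ d := Nat.cast_nonneg d
  have hq0 : 0 < q := by rw [hq]; linarith
  have haq : a * q = 2 := by rw [ha, hq]; field_simp
  have hab : b ≤ a := by
    rw [ha, hb]
    exact div_le_div_of_nonneg_left (by norm_num) (by positivity) (by linarith)
  have ha0 : 0 ≤ a := by rw [ha]; positivity
  have hb0 : 0 ≤ b := by rw [hb]; positivity
  obtain ⟨D1, hD1, hA⟩ := line_rad L δ hδ0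
  obtain ⟨D2, hD2, hB⟩ := fibre_poly L L' δ hδ0
  rw [← ha] at hA
  rw [← hb] at hB
  refine ⟨(D1 + 9) * D2, by positivity, fun Λ L1 L2 hΛ hL1 hL2 F hF => ?_⟩
  have hlog0 : ∀ q : ℕ, 0 ≤ Real.log (q : ℝ) := fun q => Real.log_natCast_nonneg q
  have hla : ∀ P ∈ F, 0 ≤ lN L P.1 ∧ lN L P.1 ≤ Λ := by
    intro P hP
    refine ⟨lN_nonneg L _, le_trans ?_ (hF P hP).2.2.2.2⟩
    exact Finset.sum_le_sum_of_subset_of_nonneg Finset.subset_union_left fun q _ _ => hlog0 q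
  obtain ⟨A, hAd⟩ : ∃ A : ℕ → ℝ, A = fun u : ℕ => if (u : ℝ) ≤ q * L1 then
      D1 * Real.exp ((a + δ) * (u + 1)) else 9 * Real.exp (2 * L1) := ⟨_, rfl⟩
  obtain ⟨B, hBd⟩ : ∃ B : ℕ → ℝ, B = fun u : ℕ =>
      D2 * Real.exp ((b + δ) * (Λ - u) + δ * L2 + δ * (u + 1)) := ⟨_, rfl⟩
  obtain ⟨M, hM⟩ : ∃ M : ℝ, M = 2 * L1 + b * (Λ - q * L1) + a + 2 + δ * (2 * Λ + L2 + 2) :=
    ⟨_, rfl⟩
  rw [← hM]
  have hA0 : ∀ j, 0 ≤ A j := fun j => by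
    rw [hAd]
    simp only
    split_ifs <;> positivity
  have hB0 : ∀ j, 0 ≤ B j := fun j => by rw [hBd]; positivity
  have hAG : ∀ u : ℕ, ∀ G : Finset (ℤ × ℤ), (∀ x ∈ G, (∃ y, (x, y) ∈ F) ∧ lN L x < u + 1) →
      (G.card : ℝ) ≤ A u := by
    intro u G hG
    rw [hAd]
    simp only
    split_ifs with hu
    · refine hA (u + 1) (by positivity) G fun x hx => ?_
      obtain ⟨⟨y, hy⟩, hlt⟩ := hG x hx
      exact ⟨(hF _ hy).1, hlt.le⟩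
    · refine small_h L hL1 G fun x hx => ?_
      obtain ⟨⟨y, hy⟩, -⟩ := hG x hx
      exact ⟨(hF _ hy).1, (hF _ hy).2.2.1⟩
  have hBG : ∀ (u : ℕ) (x : ℤ × ℤ), (u : ℝ) ≤ lN L x → lN L x < u + 1 → ∀ G : Finset (ℤ × ℤ),
      (∀ y ∈ G, (x, y) ∈ F) → (G.card : ℝ) ≤ B u := by
    intro u x hux hxu G hG
    rcases G.eq_empty_or_nonempty with he | ⟨y0, hy0⟩
    · rw [he, Finset.card_empty, Nat.cast_zero]
      exact hB0 u
    have huΛ : (u : ℝ) ≤ Λ := hux.trans (hla _ (hG y0 hy0)).2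
    rw [hBd]
    exact hB Λ L2 hL2 x u hux hxu huΛ G fun y hy =>
      ⟨(hF _ (hG y hy)).2.1, (hF _ (hG y hy)).2.2.2⟩
  have hKG : ∀ u : ℕ, (u : ℝ) ≤ Λ → A u * B u ≤ (D1 + 9) * D2 * Real.exp M := by
    intro u huΛ
    rw [hAd, hBd]
    simp only
    split_ifs with hu
    · exact box_case1 hD1 hD2 hδ0 hab haq hu huΛ hM
    · exact box_case2 hD1 hD2 hδ0 ha0 hb0 (not_le.1 hu) hΛ hM
  exact slices F (fun x => lN L x) hΛ hla hA0 hB0 hAG hBG (by positivity) hKG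

/-- **exceptions to the inequality of Vojta in boxes** -/
theorem box_upper {d e : ℕ} (L : Fm (d + 3)) (L' : Fm (e + 3)) (hde : d ≤ e) (κ c ε : ℝ)
    (hκ0 : 0 ≤ κ) (hκ : κ ≤ (d : ℝ) + 3) (hc : 0 ≤ c) (hε : 0 < ε) :
    ∃ D : ℝ, 0 < D ∧
    ∀ L1 L2 : ℝ, 0 ≤ L1 → 0 ≤ L2 → ∀ F : Finset ((ℤ × ℤ) × (ℤ × ℤ)), (∀ P ∈ F, Pt L P.1 ∧
      Pt L' P.2 ∧ Real.log (ht P.1) ≤ L1 ∧ Real.log (ht P.2) ≤ L2 ∧
      ∑ q ∈ (Np L P.1).primeFactors ∪ (Np L' P.2).primeFactors, Real.log (q : ℝ) ≤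
        ((d : ℝ) + 3 - κ) * Real.log (ht P.1) + ((e : ℝ) + 3 - κ) * Real.log (ht P.2) + c) →
    (F.card : ℝ) ≤ D * Real.exp ((2 - 2 / ((e : ℝ) + 3) * κ + ε) * (L1 + L2)) := by
  classical
  obtain ⟨q, hq⟩ : ∃ q : ℝ, q = (d : ℝ) + 3 := ⟨_, rfl⟩
  obtain ⟨r, hr⟩ : ∃ r : ℝ, r = (e : ℝ) + 3 := ⟨_, rfl⟩
  obtain ⟨a, ha⟩ : ∃ a : ℝ, a = 2 / ((d : ℝ) + 3) := ⟨_, rfl⟩
  obtain ⟨b, hb⟩ : ∃ b : ℝ, b = 2 / ((e : ℝ) + 3) := ⟨_, rfl⟩
  have hdeR : (d : ℝ) ≤ e := by exact_mod_cast hde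
  have hq3 : 3 ≤ q := by rw [hq]; linarith [Nat.cast_nonneg (α := ℝ) d]
  have hq0 : 0 < q := by linarith
  have hqr : q ≤ r := by rw [hq, hr]; linarith
  have hr0 : 0 < r := by linarith
  have hbr : b * r = 2 := by rw [hb, hr]; field_simp
  obtain ⟨w, hw⟩ : ∃ w : ℝ, w = 3 * (q + r) + 1 := ⟨_, rfl⟩
  have hw0 : 0 < w := by rw [hw]; positivity
  obtain ⟨δ, hδ⟩ : ∃ δ, δ = ε / w := ⟨_, rfl⟩
  have hδ0 : 0 < δ := by rw [hδ]; positivity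
  have hδw : δ * w = ε := by rw [hδ]; field_simp
  obtain ⟨D, hD, hcount⟩ := box_count L L' hδ0 ha hb hq hde
  rw [← hq] at hκ
  rw [← hb]
  refine ⟨(1 / δ + 1) * (D * Real.exp (b * c + a + 2 + δ * (3 * c) + 2 * δ)), by positivity,
    fun L1 L2 hL1 hL2 F hF => ?_⟩
  rw [← hq, ← hr] at hF
  obtain ⟨Λ, hΛd⟩ : ∃ Λ : ℝ, Λ = (q - κ) * L1 + (r - κ) * L2 + c := ⟨_, rfl⟩
  have hΛ : 0 ≤ Λ := by
    rw [hΛd]
    have e1 : 0 ≤ (q - κ) * L1 := mul_nonneg (by linarith) hL1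
    have e2 : 0 ≤ (r - κ) * L2 := mul_nonneg (by linarith) hL2
    linarith
  have hmain := hcount Λ L1 L2 hΛ hL1 hL2 F fun P hP => by
    obtain ⟨g0, g0', g1, g2, g3⟩ := hF P hP
    refine ⟨g0, g0', g1, g2, g3.trans ?_⟩
    rw [hΛd]
    have e1 := mul_le_mul_of_nonneg_left g1 (by linarith : 0 ≤ q - κ)
    have e2 := mul_le_mul_of_nonneg_left g2 (by linarith : 0 ≤ r - κ)
    linarith
  refine hmain.trans ?_
  obtain ⟨M, hM⟩ : ∃ M : ℝ, M = 2 * L1 + b * (Λ - q * L1) + a + 2 + δ * (2 * Λ + L2 + 2) :=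
    ⟨_, rfl⟩
  rw [← hM]
  have hfin : δ * Λ + M ≤ (b * c + a + 2 + δ * (3 * c) + 2 * δ) +
      (2 - b * κ + ε) * (L1 + L2) := by
    have e1 := box_num2 (L1 := L1) hbr hΛd
    have e2 := mul_le_mul_of_nonneg_left (box_num3 hκ0 hq0.le hr0.le hL1 hL2 hΛd hw) hδ0.le
    have e3 : δ * (w * (L1 + L2) + 3 * c) = ε * (L1 + L2) + δ * (3 * c) := by
      rw [mul_add, ← mul_assoc, hδw]
    have e4 : δ * (2 * Λ + L2 + 2) = δ * (3 * Λ + L2) - δ * Λ + 2 * δ := by ring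
    have e5 : (2 - b * κ + ε) * (L1 + L2) = (2 - b * κ) * (L1 + L2) + ε * (L1 + L2) := by ring
    rw [hM, e1, e4, e5]
    rw [e3] at e2
    linarith
  calc (Λ + 1) * (D * Real.exp M) ≤ ((1 / δ + 1) * Real.exp (δ * Λ)) * (D * Real.exp M) :=
        mul_le_mul_of_nonneg_right (lin_exp hδ0 hΛ) (by positivity)
    _ = (1 / δ + 1) * D * (Real.exp (δ * Λ) * Real.exp M) := by ring
    _ = (1 / δ + 1) * D * Real.exp (δ * Λ + M) := by rw [← Real.exp_add]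
    _ ≤ (1 / δ + 1) * D * Real.exp ((b * c + a + 2 + δ * (3 * c) + 2 * δ) +
      (2 - b * κ + ε) * (L1 + L2)) :=
        mul_le_mul_of_nonneg_left (Real.exp_le_exp.2 hfin) (by positivity)
    _ = _ := by rw [Real.exp_add]; ring

end Pool.Agent.TH893.PG
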