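import Pool.Agent.TH867.QF.Main

/-!
Points of the projective line over the rationals and `r` linear forms: the number of points the
values of which have a radical at most `M`, apart from given primes (helper893).
-/

set_option autoImplicit false

namespace Pool.Agent.TH893.PG

open Finset
open Pool.Agent.TH867.QF
open Pool.Agent.TH867.SR (sum_omega rho rho_gt)

/-- a part of `R` of weight at least `κ` and of small cost -/
theorem prefix_part (w c : ℕ → ℝ) (hc : ∀ q, 0 ≤ c q) {κ W : ℝ} (hκ : 0 ≤ κ)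
    (hW : 0 ≤ W) :
    ∀ (n : ℕ) (R : Finset ℕ), R.card = n → (∀ q ∈ R, w q ≤ W) → κ ≤ ∑ q ∈ R, w q →
      ∃ S ⊆ R, κ ≤ ∑ q ∈ S, w q ∧
        (∑ q ∈ S, c q) * (∑ q ∈ R, w q) ≤ (∑ q ∈ R, c q) * (κ + W) := by
  classical
  intro n
  induction n with
  | zero =>
    intro R hR _ hκR
    rw [Finset.card_eq_zero] at hR
    subst hR
    refine ⟨∅, Finset.Subset.refl _, hκR, ?_⟩
    simp
  | succ n ih =>
    intro R hR hWR hκR
    rcases le_or_gt (∑ q ∈ R, w q) (κ + W) with h1 | h1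
    · exact ⟨R, Finset.Subset.refl _, hκR,
        mul_le_mul_of_nonneg_left h1 (Finset.sum_nonneg fun q _ => hc q)⟩
    · obtain ⟨p, hp, hpr⟩ : ∃ p ∈ R, (∑ q ∈ R, c q) * w p ≤ c p * ∑ q ∈ R, w q := by
        by_contra hcon
        push Not at hcon
        have hne : R.Nonempty := by
          rw [← Finset.card_pos, hR]; omega
        have h2 := Finset.sum_lt_sum_of_nonempty hne hcon
        rw [← Finset.mul_sum, ← Finset.sum_mul] at h2
        exact lt_irrefl _ h2
      have hcard : (R.erase p).card = n := by rw [Finset.card_erase_of_mem hp, hR]; rfl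
      have e1 : w p + ∑ q ∈ R.erase p, w q = ∑ q ∈ R, w q := Finset.add_sum_erase _ _ hp
      have e2 : c p + ∑ q ∈ R.erase p, c q = ∑ q ∈ R, c q := Finset.add_sum_erase _ _ hp
      have hpW := hWR p hp
      obtain ⟨S, hS, h3, h4⟩ := ih (R.erase p) hcard
        (fun q hq => hWR q (Finset.mem_of_mem_erase hq)) (by linarith)
      refine ⟨S, hS.trans (Finset.erase_subset _ _), h3, ?_⟩
      obtain ⟨a, ha⟩ : ∃ a, a = ∑ q ∈ R.erase p, w q := ⟨_, rfl⟩
      obtain ⟨b, hb⟩ : ∃ b, b = ∑ q ∈ R.erase p, c q := ⟨_, rfl⟩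
      obtain ⟨A, hA⟩ : ∃ A, A = ∑ q ∈ R, w q := ⟨_, rfl⟩
      obtain ⟨B, hB⟩ : ∃ B, B = ∑ q ∈ R, c q := ⟨_, rfl⟩
      obtain ⟨s, hs⟩ : ∃ s, s = ∑ q ∈ S, c q := ⟨_, rfl⟩
      rw [← hA, ← hB] at hpr
      rw [← ha, ← hA] at e1
      rw [← hb, ← hB] at e2
      rw [← hs, ← ha, ← hb] at h4
      rw [← hs, ← hA, ← hB]
      rw [← hA] at h1
      have ha0 : 0 < a := by linarith
      have hA0 : 0 < A := by linarith
      have h5 : b * A ≤ B * a := by
        have : b = B - c p := by linarith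
        rw [this]
        have : a = A - w p := by linarith
        rw [this]
        nlinarith
      have h6 : (s * A) * a ≤ (B * (κ + W)) * a := by
        calc (s * A) * a = (s * a) * A := by ring
          _ ≤ (b * (κ + W)) * A := mul_le_mul_of_nonneg_right h4 hA0.le
          _ = (b * A) * (κ + W) := by ring
          _ ≤ (B * a) * (κ + W) := mul_le_mul_of_nonneg_right h5 (by linarith)
          _ = _ := by ring
      exact le_of_mul_le_mul_right h6 ha0

section NZ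

variable {r : ℕ} [NeZero r]

/-- light points of one scale, with free primes -/
theorem light_free_scale {L : Fm r} (hr : 2 ≤ r) {k : ℕ} (hk : 1 ≤ k) : ∃ D : ℝ, 0 < D ∧
    ∀ (M Y l : ℝ), 1 ≤ M → 1 ≤ Y → 4 * (k : ℝ) * cL L ≤ l → ∀ T : Finset ℕ,
      (∀ q ∈ T, q.Prime) → ((∏ q ∈ T, q : ℕ) : ℝ) ≤ Y → ∀ F : Finset (ℤ × ℤ),
      (∀ t ∈ F, Pt L t ∧ Scale k l t ∧ ∃ S : Finset ℕ, (∀ q ∈ S, q.Prime) ∧
        (∃ I, Light L k (S ∪ T) I t) ∧ ((∏ q ∈ S, q : ℕ) : ℝ) ≤ M) →
    (F.card : ℝ) ≤ D * M ^ (1 + 1 / (k : ℝ)) * Y ^ (1 / (k : ℝ)) := by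
  classical
  have hk0 : (0 : ℝ) < k := by exact_mod_cast hk
  have hr0 : (0 : ℝ) < r := by
    have : 0 < r := by omega
    exact_mod_cast this
  have h2 : (1 : ℝ) ≤ (2 : ℝ) ^ (9 * r * k) := one_le_pow₀ (by norm_num)
  obtain ⟨D, hD, h⟩ := sum_omega ((2 : ℝ) ^ (9 * r * k)) h2 (1 / (k : ℝ)) (by positivity)
  obtain ⟨D', hD', h'⟩ := Pool.Agent.H785R2.ABC.stmtA1 ((2 : ℝ) ^ (9 * r * k)) h2
    (1 / (k : ℝ)) (by positivity)
  refine ⟨(r : ℝ) * 2 ^ (9 * r * k) * D * D', by positivity,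
    fun M Y l hM hY hl T hT hTY F hF => ?_⟩
  have hTpos : 0 < ∏ q ∈ T, q := Finset.prod_pos fun q hq => (hT q hq).pos
  have hTc : ((2 : ℝ) ^ (9 * r * k)) ^ T.card ≤ D' * Y ^ (1 / (k : ℝ)) := by
    have h3 := h' (∏ q ∈ T, q) hTpos
    rw [Nat.primeFactors_prod hT] at h3
    refine h3.trans (mul_le_mul_of_nonneg_left ?_ hD'.le)
    exact Real.rpow_le_rpow (Nat.cast_nonneg _) hTY (by positivity)
  have h1 : F.card ≤ ∑ m ∈ Finset.Icc 1 ⌊M⌋₊,
      r * 2 ^ (9 * r * k * (m.primeFactors.card + T.card + 1)) := by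
    have hsub : F ⊆ (Finset.Icc 1 ⌊M⌋₊).biUnion (fun m =>
        (Finset.univ : Finset (Fin r)).biUnion (fun I =>
          F.filter fun t => Light L k (m.primeFactors ∪ T) I t)) := by
      intro t ht
      obtain ⟨a1, a2, S, a3, ⟨I, a4⟩, a5⟩ := hF t ht
      rw [Finset.mem_biUnion]
      refine ⟨∏ q ∈ S, q, Finset.mem_Icc.2 ⟨Finset.prod_pos fun q hq => (a3 q hq).pos,
        Nat.le_floor a5⟩, Finset.mem_biUnion.2 ⟨I, Finset.mem_univ _,
          Finset.mem_filter.2 ⟨ht, ?_⟩⟩⟩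
      rw [Nat.primeFactors_prod a3]
      exact a4
    refine (Finset.card_le_card hsub).trans (Finset.card_biUnion_le.trans
      (Finset.sum_le_sum fun m _ => ?_))
    refine (Finset.card_biUnion_le_card_mul _ _
      (2 ^ (9 * r * k * (m.primeFactors.card + T.card + 1)))
      fun I _ => ?_).trans (le_of_eq ?_)
    · have hS' : ∀ q ∈ m.primeFactors ∪ T, q.Prime := by
        intro q hq
        rcases Finset.mem_union.1 hq with h3 | h3
        · exact Nat.prime_of_mem_primeFactors h3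
        · exact hT q h3
      refine (card_light hr hk (S := m.primeFactors ∪ T) (I := I) hS' hl _ fun t ht => ?_).trans ?_
      · obtain ⟨b1, b2⟩ := Finset.mem_filter.1 ht
        exact ⟨(hF t b1).1, (hF t b1).2.1, b2⟩
      · refine Nat.pow_le_pow_right (by norm_num) (Nat.mul_le_mul_left _ ?_)
        exact Nat.add_le_add_right (Finset.card_union_le _ _) 1
    · rw [Finset.card_univ, Fintype.card_fin]
  have h2' : (F.card : ℝ) ≤ ∑ m ∈ Finset.Icc 1 ⌊M⌋₊,
      ((r : ℝ) * (2 : ℝ) ^ (9 * r * k) * ((2 : ℝ) ^ (9 * r * k)) ^ T.card) *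
        ((2 : ℝ) ^ (9 * r * k)) ^ m.primeFactors.card := by
    have h3 : (F.card : ℝ) ≤ ((∑ m ∈ Finset.Icc 1 ⌊M⌋₊,
        r * 2 ^ (9 * r * k * (m.primeFactors.card + T.card + 1)) : ℕ) : ℝ) := by exact_mod_cast h1
    refine h3.trans (le_of_eq ?_)
    push_cast
    refine Finset.sum_congr rfl fun m _ => ?_
    rw [pow_mul, pow_succ, pow_add]
    ring
  rw [← Finset.mul_sum] at h2'
  refine h2'.trans ?_
  have h4 : ∑ m ∈ Finset.Icc 1 ⌊M⌋₊, ((2 : ℝ) ^ (9 * r * k)) ^ m.primeFactors.card ≤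
      D * M ^ (1 + 1 / (k : ℝ)) := by
    refine (h ⌊M⌋₊).trans (mul_le_mul_of_nonneg_left ?_ hD.le)
    exact Real.rpow_le_rpow (Nat.cast_nonneg _) (Nat.floor_le (by linarith)) (by positivity)
  calc (r : ℝ) * 2 ^ (9 * r * k) * ((2 : ℝ) ^ (9 * r * k)) ^ T.card *
      ∑ m ∈ Finset.Icc 1 ⌊M⌋₊, ((2 : ℝ) ^ (9 * r * k)) ^ m.primeFactors.card ≤
      (r : ℝ) * 2 ^ (9 * r * k) * (D' * Y ^ (1 / (k : ℝ))) * (D * M ^ (1 + 1 / (k : ℝ))) := by
        refine mul_le_mul (mul_le_mul_of_nonneg_left hTc (by positivity)) h4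
          (Finset.sum_nonneg fun _ _ => by positivity) (by positivity)
    _ = _ := by ring

/-- light points of all scales, with free primes -/
theorem light_free_total {L : Fm r} (hr : 2 ≤ r) {k : ℕ} (hk : 1 ≤ k) : ∃ D : ℝ, 0 < D ∧
    ∀ (M Y H : ℝ), 1 ≤ M → 1 ≤ Y → 1 ≤ H → ∀ T : Finset ℕ,
      (∀ q ∈ T, q.Prime) → ((∏ q ∈ T, q : ℕ) : ℝ) ≤ Y → ∀ F : Finset (ℤ × ℤ), (∀ t ∈ F, Pt L t ∧
      Real.log (ht t) ≤ H ∧ (4 * (k : ℝ) * cL L ≤ Real.log (ht t) →
      ∃ S : Finset ℕ, (∀ q ∈ S, q.Prime) ∧ (∃ I, Light L k (S ∪ T) I t) ∧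
        ((∏ q ∈ S, q : ℕ) : ℝ) ≤ M)) →
    (F.card : ℝ) ≤ D * M ^ (1 + 1 / (k : ℝ)) * Y ^ (1 / (k : ℝ)) * (1 + Real.log H) := by
  classical
  have hk0 : (0 : ℝ) < k := by exact_mod_cast hk
  have hk1 : (1 : ℝ) ≤ k := by exact_mod_cast hk
  obtain ⟨D, hD, h⟩ := light_free_scale (L := L) hr hk
  have hρ := rho_gt hk
  have hlρ : 0 < Real.log (rho k) := Real.log_pos hρ
  have hc := cL_ge L
  obtain ⟨c0, hc0⟩ : ∃ c0, c0 = 4 * (k : ℝ) * cL L := ⟨_, rfl⟩
  rw [← hc0] at h ⊢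
  have hc0p : 1 ≤ c0 := by
    rw [hc0]
    nlinarith
  obtain ⟨D0, hD0⟩ : ∃ D0 : ℝ, D0 = (2 * (⌊Real.exp c0⌋₊ : ℝ) + 1) ^ 2 := ⟨_, rfl⟩
  have hD0' : 0 ≤ D0 := by rw [hD0]; positivity
  refine ⟨D0 + D * (1 + 1 / Real.log (rho k)), by positivity,
    fun M Y H hM hY hH T hT hTY F hF => ?_⟩
  have hlH : 0 ≤ Real.log H := Real.log_nonneg hH
  have hMp : 1 ≤ M ^ (1 + 1 / (k : ℝ)) := Real.one_le_rpow hM (by positivity)
  have hYp : 1 ≤ Y ^ (1 / (k : ℝ)) := Real.one_le_rpow hY (by positivity)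
  obtain ⟨Z, hZ⟩ : ∃ Z, Z = M ^ (1 + 1 / (k : ℝ)) * Y ^ (1 / (k : ℝ)) := ⟨_, rfl⟩
  have hZ1 : 1 ≤ Z := by rw [hZ]; exact one_le_mul_of_one_le_of_one_le hMp hYp
  have hZ0 : 0 < Z := by linarith
  set F1 := F.filter fun t => Real.log (ht t) ≤ c0 with hF1
  set F2 := F.filter fun t => ¬ Real.log (ht t) ≤ c0 with hF2
  have hcardN : F.card = F1.card + F2.card :=
    (Finset.card_filter_add_card_filter_not (s := F) (fun t => Real.log (ht t) ≤ c0)).symm
  have hcard : (F.card : ℝ) = F1.card + F2.card := by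
    rw [hcardN, Nat.cast_add]
  have c1 : (F1.card : ℝ) ≤ D0 := by
    have h1 := small_height L c0 F1 (fun t ht => by
      obtain ⟨b1, b2⟩ := Finset.mem_filter.1 ht
      exact ⟨(hF t b1).1, b2⟩)
    rw [hD0]
    exact_mod_cast h1
  have c2 : (F2.card : ℝ) ≤ D * Z * ((1 + 1 / Real.log (rho k)) * (1 + Real.log H)) := by
    rcases le_or_gt c0 H with hcase | hcase
    · obtain ⟨J, hJ, G, hG, hGc⟩ := scales hk (l0 := c0) (H := H) (by linarith) hcase F2
        (fun t ht => by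
          obtain ⟨b1, b2⟩ := Finset.mem_filter.1 ht
          exact ⟨(not_le.1 b2).le, (hF t b1).2.1⟩)
      have hGj : ∀ j ∈ Finset.range (J + 1), ((G j).card : ℝ) ≤ D * Z := by
        intro j _
        have h9 := h M Y (c0 * rho k ^ j) hM hY ?_ T hT hTY (G j) fun t ht => ?_
        · rw [hZ, ← mul_assoc]
          exact h9
        · have : 1 ≤ rho k ^ j := one_le_pow₀ hρ.le
          exact le_mul_of_one_le_right (by linarith) this
        · obtain ⟨d1, d2⟩ := hG j t ht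
          obtain ⟨b1, b2⟩ := Finset.mem_filter.1 d1
          exact ⟨(hF t b1).1, d2, (hF t b1).2.2 (not_le.1 b2).le⟩
      have h3 : (F2.card : ℝ) ≤ ∑ j ∈ Finset.range (J + 1), ((G j).card : ℝ) := by
        exact_mod_cast hGc
      refine (h3.trans (Finset.sum_le_sum hGj)).trans ?_
      rw [Finset.sum_const, Finset.card_range, nsmul_eq_mul, mul_comm]
      refine mul_le_mul_of_nonneg_left ?_ (by positivity)
      have h4 : (J : ℝ) * Real.log (rho k) ≤ Real.log H := by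
        rw [← Real.log_pow]
        refine Real.log_le_log (by positivity) ?_
        refine le_trans ?_ hJ
        have : 0 < rho k ^ J := by positivity
        exact le_mul_of_one_le_left this.le hc0p
      have h5 : (J : ℝ) ≤ 1 / Real.log (rho k) * Real.log H := by
        rw [one_div, ← div_eq_inv_mul, le_div_iff₀ hlρ]
        exact h4
      push_cast
      have h6 : 0 < 1 / Real.log (rho k) := by positivity
      have h7 : 0 ≤ 1 / Real.log (rho k) * 1 := by positivity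
      have h8 : (1 + 1 / Real.log (rho k)) * (1 + Real.log H) =
        1 + Real.log H + 1 / Real.log (rho k) + 1 / Real.log (rho k) * Real.log H := by ring
      rw [h8]
      linarith
    · have : F2 = ∅ := by
        rw [Finset.eq_empty_iff_forall_notMem]
        intro t ht
        obtain ⟨b1, b2⟩ := Finset.mem_filter.1 ht
        have := (hF t b1).2.1
        linarith [not_le.1 b2]
      rw [this, Finset.card_empty, Nat.cast_zero]
      positivity
  rw [hcard]
  have c3 : D0 ≤ D0 * Z * (1 + Real.log H) := by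
    have : 1 ≤ Z * (1 + Real.log H) := by nlinarith
    calc D0 = D0 * 1 := (mul_one _).symm
      _ ≤ D0 * (Z * (1 + Real.log H)) := mul_le_mul_of_nonneg_left this hD0'
      _ = _ := by ring
  have c4 : (D0 + D * (1 + 1 / Real.log (rho k))) * M ^ (1 + 1 / (k : ℝ)) *
      Y ^ (1 / (k : ℝ)) * (1 + Real.log H) =
      D0 * Z * (1 + Real.log H) + D * Z * ((1 + 1 / Real.log (rho k)) * (1 + Real.log H)) := by
    rw [hZ]; ring
  rw [c4]
  linarith

end NZ

/-- the part of the weight of one prime is at most that of a value -/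
theorem vv_weight_le {r : ℕ} [NeZero r] {L : Fm r} {P : ℤ × ℤ} (h : Pt L P) {q : ℕ}
    (hq : q.Prime) : (vv L P q : ℝ) * Real.log q ≤ Real.log (U L) + Real.log (ht P) := by
  have h1 : q ^ vv L P q ≤ va L P (ty L P q) := Nat.ordProj_le q (va_pos h _).ne'
  have h2 : (0 : ℝ) < ((q ^ vv L P q : ℕ) : ℝ) := by exact_mod_cast pow_pos hq.pos _
  have h3 := Real.log_le_log h2 (by exact_mod_cast h1 :
    ((q ^ vv L P q : ℕ) : ℝ) ≤ (va L P (ty L P q) : ℝ))
  push_cast at h3
  rw [Real.log_pow] at h3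
  exact h3.trans (log_va_le h _)

theorem num_key {d v l x : ℝ} (hd : 0 ≤ d) (hx : 0 ≤ x) (hv : v ≤ l + x / 8) :
    (v + 2 * l - x * (7 / 8)) * (d + 3) ≤ 3 * (v + (d + 2) * l - (d + 3) * (x / 4)) := by
  have h1 : 0 ≤ d * (l + x / 8 - v) := mul_nonneg hd (by linarith)
  have h2 : 3 * (v + (d + 2) * l - (d + 3) * (x / 4)) -
      (v + 2 * l - x * (7 / 8)) * (d + 3) = d * (l + x / 8 - v) + 3 * x / 8 := by ring
  linarith

/-- **the choice of the prescribed primes outside `T`** -/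
theorem choice_free {d : ℕ} {L : Fm (d + 3)} {k : ℕ} (hk : 2 ≤ k) {P : ℤ × ℤ} (h : Pt L P)
    (hH : 4 * (k : ℝ) * cL L ≤ Real.log (ht P)) (T : Finset ℕ) :
    ∃ S : Finset ℕ, (∀ q ∈ S, q.Prime) ∧ (∃ I, Light L k (S ∪ T) I P) ∧
      ∑ q ∈ S, Real.log (q : ℝ) ≤
        (3 / ((d : ℝ) + 3) + 2 / k) * ∑ q ∈ (Np L P).primeFactors \ T, Real.log (q : ℝ) := by
  classical
  have hk2 : (2 : ℝ) ≤ k := by exact_mod_cast hk
  have hk0 : (0 : ℝ) < k := by linarith
  have hc := cL_ge L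
  obtain ⟨l, hl⟩ : ∃ l, l = Real.log (ht P) := ⟨_, rfl⟩
  rw [← hl] at hH
  have hl0 : 0 < l := lt_of_lt_of_le (by positivity) hH
  have hcl : cL L ≤ l / (4 * k) := by
    rw [le_div_iff₀ (by positivity)]
    linarith
  have n1 := Real.log_natCast_nonneg (Rs L)
  have n2 := Real.log_natCast_nonneg (U L)
  have hnU : 2 * Real.log (U L) ≤ l / (4 * k) := by
    refine le_trans ?_ hcl
    unfold cL; linarith
  have hnR : 2 * Real.log (Rs L) ≤ l / (4 * k) := by
    refine le_trans ?_ hcl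
    unfold cL; linarith
  obtain ⟨I, -, hI⟩ := Finset.exists_min_image (Finset.univ : Finset (Fin (d + 3)))
    (fun i => va L P i) ⟨0, Finset.mem_univ _⟩
  obtain ⟨v, hv⟩ : ∃ v, v = Real.log (va L P I) := ⟨_, rfl⟩
  have hv0 : 0 ≤ v := by rw [hv]; exact Real.log_natCast_nonneg _
  have hvl : v ≤ Real.log (U L) + l := by rw [hv, hl]; exact log_va_le h I
  -- the weights
  obtain ⟨w, hw⟩ : ∃ w : ℕ → ℝ, w = fun q => (vv L P q : ℝ) * Real.log q := ⟨_, rfl⟩
  have hw0 : ∀ q, 0 ≤ w q := fun q => by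
    rw [hw]; exact mul_nonneg (Nat.cast_nonneg _) (Real.log_natCast_nonneg q)
  obtain ⟨N, hN⟩ : ∃ N, N = (Np L P).primeFactors := ⟨_, rfl⟩
  have hNp : ∀ q ∈ N, q.Prime := fun q hq => by
    rw [hN] at hq; exact Nat.prime_of_mem_primeFactors hq
  -- the total weight
  have htot : v + ((d : ℝ) + 2) * (l - Real.log (U L)) - ((d : ℝ) + 3) * Real.log (Rs L) ≤
      ∑ q ∈ N, w q := by
    have e1 : ∑ q ∈ N, w q = ∑ i, ∑ q ∈ Sd L P i, w q := by
      rw [hN]
      unfold Sd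
      exact (Finset.sum_fiberwise _ _ _).symm
    have e2 : ∀ i, Real.log (va L P i) - Real.log (Rs L) ≤ ∑ q ∈ Sd L P i, w q := by
      intro i
      have := Sd_weight h i
      rw [hw]
      linarith
    have e3 : ∑ i : Fin (d + 3), (Real.log (va L P i) - Real.log (Rs L)) ≤ ∑ q ∈ N, w q := by
      rw [e1]
      exact Finset.sum_le_sum fun i _ => e2 i
    rw [Finset.sum_sub_distrib, Finset.sum_const, Finset.card_univ, Fintype.card_fin,
      nsmul_eq_mul, ← Finset.add_sum_erase _ _ (Finset.mem_univ I), ← hv] at e3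
    have e4 : ((d : ℝ) + 2) * (l - Real.log (U L)) ≤
        ∑ i ∈ (Finset.univ : Finset (Fin (d + 3))).erase I, Real.log (va L P i) := by
      have e5 := Finset.card_nsmul_le_sum ((Finset.univ : Finset (Fin (d + 3))).erase I)
        (fun i => Real.log (va L P i : ℝ)) (l - Real.log (U L)) (fun i hi => by
          have h1 := log_va_ge h (Finset.ne_of_mem_erase hi).symm (hI i (Finset.mem_univ _))
          rw [hl]
          exact h1)
      rw [Finset.card_erase_of_mem (Finset.mem_univ _), Finset.card_univ, Fintype.card_fin,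
        nsmul_eq_mul] at e5
      have e6 : ((d + 3 - 1 : ℕ) : ℝ) = (d : ℝ) + 2 := by
        have : d + 3 - 1 = d + 2 := by omega
        rw [this]; push_cast; ring
      rwa [e6] at e5
    push_cast at e3
    linarith
  -- the free weight
  obtain ⟨τ, hτ⟩ : ∃ τ, τ = ∑ q ∈ T, w q := ⟨_, rfl⟩
  have hτ0 : 0 ≤ τ := by rw [hτ]; exact Finset.sum_nonneg fun q _ => hw0 q
  obtain ⟨R, hR⟩ : ∃ R, R = N \ T := ⟨_, rfl⟩
  have hRp : ∀ q ∈ R, q.Prime := fun q hq => by
    rw [hR] at hq; exact hNp q (Finset.mem_sdiff.1 hq).1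
  have hRw : ∑ q ∈ N, w q ≤ ∑ q ∈ R, w q + τ := by
    rw [hR, hτ, ← Finset.sum_sdiff (Finset.inter_subset_left : N ∩ T ⊆ N)]
    have e : N \ (N ∩ T) = N \ T := by
      ext p; simp only [Finset.mem_sdiff, Finset.mem_inter]; tauto
    rw [e]
    have := Finset.sum_le_sum_of_subset_of_nonneg (f := w)
      (Finset.inter_subset_right : N ∩ T ⊆ T) fun p _ _ => hw0 p
    linarith
  have hlog0 : ∀ q : ℕ, 0 ≤ Real.log (q : ℝ) := fun q => Real.log_natCast_nonneg q
  have hlam0 : 0 ≤ ∑ q ∈ R, Real.log (q : ℝ) := Finset.sum_nonneg fun q _ => hlog0 q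
  obtain ⟨θ, hθ⟩ : ∃ θ : ℝ, θ = 3 / ((d : ℝ) + 3) + 2 / k := ⟨_, rfl⟩
  have hθ0 : 0 ≤ θ := by rw [hθ]; positivity
  have hd3 : (0 : ℝ) < (d : ℝ) + 3 := by positivity
  have hd0 : (0 : ℝ) ≤ d := Nat.cast_nonneg d
  rw [← hθ, ← hN, ← hR]
  -- all the primes are light
  obtain ⟨κ, hκ⟩ : ∃ κ, κ = v + (1 + 1 / (k : ℝ)) * l - τ := ⟨_, rfl⟩
  have hlight : ∀ S ⊆ R, κ ≤ ∑ q ∈ S, w q → Light L k (S ∪ T) I P := by
    intro S hS hκS
    have hdis : Disjoint S T := by
      rw [Finset.disjoint_left]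
      intro q hq hqT
      have := hS hq
      rw [hR] at this
      exact (Finset.mem_sdiff.1 this).2 hqT
    rw [Light, Finset.sum_union hdis, ← hv, ← hl]
    have e1 : ∑ q ∈ S, (vv L P q : ℝ) * Real.log q = ∑ q ∈ S, w q := by rw [hw]
    have e2 : ∑ q ∈ T, (vv L P q : ℝ) * Real.log q = τ := by rw [hτ, hw]
    rw [e1, e2]
    linarith
  have hlk : l / k ≤ l / 2 := div_le_div_of_nonneg_left hl0.le (by norm_num) hk2
  have hl4k : l / (4 * k) = l / k / 4 := by field_simp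
  rcases le_or_gt κ 0 with hκ0 | hκ0
  · refine ⟨∅, by simp, ⟨I, hlight ∅ (Finset.empty_subset _) (by simpa using hκ0)⟩, ?_⟩
    rw [Finset.sum_empty]
    exact mul_nonneg hθ0 hlam0
  · -- the weight of `R`
    have hRκ : κ ≤ ∑ q ∈ R, w q := by
      have e1 : (1 + 1 / (k : ℝ)) * l = l + l / k := by ring
      rw [hκ, e1]
      have e2 : l + l / k ≤ ((d : ℝ) + 2) * (l - Real.log (U L)) -
          ((d : ℝ) + 3) * Real.log (Rs L) := by
        have a1 : l / k * (7 / 4) ≤ l := by linarith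
        have a2 : ((d : ℝ) + 2) * Real.log (U L) ≤ ((d : ℝ) + 2) * (l / k / 8) := by
          refine mul_le_mul_of_nonneg_left ?_ (by positivity)
          rw [hl4k] at hnU; linarith
        have a3 : ((d : ℝ) + 3) * Real.log (Rs L) ≤ ((d : ℝ) + 3) * (l / k / 8) := by
          refine mul_le_mul_of_nonneg_left ?_ (by positivity)
          rw [hl4k] at hnR; linarith
        have a4 : (d : ℝ) * (l / k) ≤ (d : ℝ) * (l / 2) := mul_le_mul_of_nonneg_left hlk hd0
        nlinarith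
      linarith
    obtain ⟨S, hS, h1, h2⟩ := prefix_part w (fun q => Real.log (q : ℝ)) hlog0 hκ0.le
      (W := Real.log (U L) + l) (by linarith) R.card R rfl
      (fun q hq => by rw [hw, hl]; exact vv_weight_le h (hRp q hq)) hRκ
    refine ⟨S, fun q hq => hRp q (hS hq), ⟨I, hlight S hS h1⟩, ?_⟩
    rcases le_or_gt 1 θ with hθ1 | hθ1
    · calc ∑ q ∈ S, Real.log (q : ℝ) ≤ ∑ q ∈ R, Real.log (q : ℝ) :=
            Finset.sum_le_sum_of_subset_of_nonneg hS fun q _ _ => hlog0 q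
        _ ≤ θ * ∑ q ∈ R, Real.log (q : ℝ) := le_mul_of_one_le_left hlam0 hθ1
    · -- `κ + W ≤ θ * weight`
      have hWR0 : 0 < ∑ q ∈ R, w q := lt_of_lt_of_le hκ0 hRκ
      have key : κ + (Real.log (U L) + l) ≤ θ * ∑ q ∈ R, w q := by
        have hb : v + ((d : ℝ) + 2) * (l - Real.log (U L)) - ((d : ℝ) + 3) * Real.log (Rs L) - τ ≤
            ∑ q ∈ R, w q := by linarith
        have e0 := mul_le_mul_of_nonneg_left hb hθ0
        have eτ : θ * τ ≤ τ := by nlinarith
        obtain ⟨B, hB⟩ : ∃ B, B = v + ((d : ℝ) + 2) * (l - Real.log (U L)) -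
          ((d : ℝ) + 3) * Real.log (Rs L) := ⟨_, rfl⟩
        rw [← hB] at e0
        have e1 : θ * (B - τ) = θ * B - θ * τ := by ring
        -- it is enough
        have e2 : v + (2 + 1 / (k : ℝ)) * l + Real.log (U L) ≤ θ * B := by
          obtain ⟨x, hx⟩ : ∃ x, x = l / k := ⟨_, rfl⟩
          rw [hl4k, ← hx] at hnU hnR
          rw [← hx] at hlk
          have hx0 : 0 < x := by rw [hx]; positivity
          have hB1 : v + ((d : ℝ) + 2) * l - ((d : ℝ) + 3) * (x / 4) ≤ B := by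
            rw [hB]
            have a2 : ((d : ℝ) + 2) * Real.log (U L) ≤ ((d : ℝ) + 2) * (x / 8) :=
              mul_le_mul_of_nonneg_left (by linarith) (by positivity)
            have a3 : ((d : ℝ) + 3) * Real.log (Rs L) ≤ ((d : ℝ) + 3) * (x / 8) :=
              mul_le_mul_of_nonneg_left (by linarith) (by positivity)
            nlinarith
          have hθB := mul_le_mul_of_nonneg_left hB1 hθ0
          refine le_trans ?_ hθB
          have e3 : (2 + 1 / (k : ℝ)) * l = 2 * l + x := by rw [hx]; ring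
          rw [e3]
          have hU8 : Real.log (U L) ≤ x / 8 := by linarith
          have hv8 : v ≤ l + x / 8 := by linarith
          -- multiply out
          obtain ⟨C, hC⟩ : ∃ C, C = v + ((d : ℝ) + 2) * l - ((d : ℝ) + 3) * (x / 4) := ⟨_, rfl⟩
          rw [← hC]
          have e4 : θ * C = 3 / ((d : ℝ) + 3) * C + 2 / (k : ℝ) * C := by rw [hθ]; ring
          rw [e4]
          have hCl : l ≤ C := by
            rw [hC]
            have : ((d : ℝ) + 3) * (x / 4) ≤ ((d : ℝ) + 3) * (l / 8) :=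
              mul_le_mul_of_nonneg_left (by linarith) (by positivity)
            nlinarith
          have e5 : 2 * x ≤ 2 / (k : ℝ) * C := by
            have : 2 / (k : ℝ) * l = 2 * x := by rw [hx]; ring
            rw [← this]
            exact mul_le_mul_of_nonneg_left hCl (by positivity)
          have e6 : v + 2 * l - x * (7 / 8) ≤ 3 / ((d : ℝ) + 3) * C := by
            rw [div_mul_eq_mul_div, le_div_iff₀ hd3, hC]
            exact num_key hd0 hx0.le hv8
          linarith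
        rw [hκ]
        have e3 : (2 + 1 / (k : ℝ)) * l = l + (1 + 1 / (k : ℝ)) * l := by ring
        linarith
      have h3 : (∑ q ∈ S, Real.log (q : ℝ)) * (∑ q ∈ R, w q) ≤
          (θ * ∑ q ∈ R, Real.log (q : ℝ)) * (∑ q ∈ R, w q) := by
        calc (∑ q ∈ S, Real.log (q : ℝ)) * (∑ q ∈ R, w q) ≤
            (∑ q ∈ R, Real.log (q : ℝ)) * (κ + (Real.log (U L) + l)) := h2
          _ ≤ (∑ q ∈ R, Real.log (q : ℝ)) * (θ * ∑ q ∈ R, w q) :=
              mul_le_mul_of_nonneg_left key hlam0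
          _ = _ := by ring
      exact le_of_mul_le_mul_right h3 hWR0

end Pool.Agent.TH893.PG
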