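import Pool.Agent.TH893.PG.All
import Pool.Agent.TH867.QF.Small

/-!
Points of bounded height with a small radical of the values, apart from given primes (helper893).
-/

set_option autoImplicit false

namespace Pool.Agent.TH893.PG

open Finset
open Pool.Agent.TH867.QF
open Pool.Agent.TH867.SR (y_lt y_bound one_add_le)

/-- `∏ p ^ (-a)` over the primes of `s` not in `T` -/
noncomputable def gT (a : ℝ) (T : Finset ℕ) (s : ℕ) : ℝ := ∏ p ∈ s.primeFactors \ T, (p : ℝ) ^ (-a)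

theorem gT_nonneg (a : ℝ) (T : Finset ℕ) (s : ℕ) : 0 ≤ gT a T s :=
  Finset.prod_nonneg fun p _ => by positivity

/-- `n ^ (-σ) gT n` -/
noncomputable def fT (σ a : ℝ) (T : Finset ℕ) (n : ℕ) : ℝ := (n : ℝ) ^ (-σ) * gT a T n

theorem fT_nonneg (σ a : ℝ) (T : Finset ℕ) (n : ℕ) : 0 ≤ fT σ a T n :=
  mul_nonneg (by positivity) (gT_nonneg _ _ _)

theorem fT_one (σ a : ℝ) (T : Finset ℕ) : fT σ a T 1 = 1 := by
  simp [fT, gT]

theorem fT_mul (σ a : ℝ) (T : Finset ℕ) {m n : ℕ} (h : Nat.Coprime m n) :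
    fT σ a T (m * n) = fT σ a T m * fT σ a T n := by
  classical
  unfold fT gT
  rw [h.primeFactors_mul, Finset.union_sdiff_distrib, Finset.prod_union (Finset.disjoint_of_subset_left
    Finset.sdiff_subset (Finset.disjoint_of_subset_right Finset.sdiff_subset
      h.disjoint_primeFactors)), Nat.cast_mul,
    Real.mul_rpow (Nat.cast_nonneg _) (Nat.cast_nonneg _)]
  ring

/-- the local factor -/
noncomputable def cT (a : ℝ) (T : Finset ℕ) (p : ℕ) : ℝ := if p ∈ T then 1 else (p : ℝ) ^ (-a)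

theorem cT_nonneg (a : ℝ) (T : Finset ℕ) (p : ℕ) : 0 ≤ cT a T p := by
  unfold cT
  split_ifs
  · exact zero_le_one
  · positivity

theorem fT_pow (σ a : ℝ) (T : Finset ℕ) {p : ℕ} (hp : p.Prime) (n : ℕ) :
    fT σ a T (p ^ (n + 1)) = cT a T p * (p : ℝ) ^ (-σ) * ((p : ℝ) ^ (-σ)) ^ n := by
  classical
  unfold fT gT cT
  have h1 : ((p ^ (n + 1) : ℕ) : ℝ) ^ (-σ) = ((p : ℝ) ^ (-σ)) ^ (n + 1) := by
    push_cast
    rw [← Real.rpow_natCast, ← Real.rpow_mul (Nat.cast_nonneg _), ← Real.rpow_natCast,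
      ← Real.rpow_mul (Nat.cast_nonneg _)]
    congr 1
    ring
  rw [Nat.primeFactors_prime_pow (Nat.succ_ne_zero n) hp, h1, pow_succ]
  split_ifs with hT
  · have : ({p} : Finset ℕ) \ T = ∅ := by
      rw [Finset.sdiff_eq_empty_iff_subset, Finset.singleton_subset_iff]
      exact hT
    rw [this, Finset.prod_empty]
    ring
  · have : ({p} : Finset ℕ) \ T = {p} := by
      rw [Finset.sdiff_eq_self_iff_disjoint, Finset.disjoint_singleton_left]
      exact hT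
    rw [this, Finset.prod_singleton]
    ring

theorem hasSum_fT {σ : ℝ} (hσ : 0 < σ) (a : ℝ) (T : Finset ℕ) {p : ℕ} (hp : p.Prime) :
    HasSum (fun n : ℕ => fT σ a T (p ^ n))
      (cT a T p * (p : ℝ) ^ (-σ) * (1 - (p : ℝ) ^ (-σ))⁻¹ + 1) := by
  have hp0 : (0 : ℝ) < p := by exact_mod_cast hp.pos
  have h1 : HasSum (fun n : ℕ => fT σ a T (p ^ (n + 1)))
      (cT a T p * (p : ℝ) ^ (-σ) * (1 - (p : ℝ) ^ (-σ))⁻¹) := by
    simp only [fT_pow σ a T hp]
    exact (hasSum_geometric_of_lt_one (by positivity) (y_lt hσ hp)).mul_left _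
  have h2 := (hasSum_nat_add_iff (f := fun n : ℕ => fT σ a T (p ^ n)) 1).1 h1
  simpa [fT_one] using h2

/-- Rankin's bound, apart from given primes -/
theorem rankin_free {σ a β : ℝ} (hσ : 0 < σ) (hβ : 0 < β) (hβ1 : β ≤ 1) (haβ : 1 < a * β)
    (T : Finset ℕ) (N : ℕ) (hN : 1 ≤ N) :
    ∑ s ∈ Finset.Icc 1 N, gT a T s ≤ (1 + 2 / σ) ^ T.card *
      Real.exp (σ * Real.log N + (2 / σ) ^ β * (∑' n : ℕ, ((n : ℝ) ^ (a * β))⁻¹) / β) := by
  classical
  have ha : 0 < a := by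
    by_contra h
    push Not at h
    nlinarith
  have hN0 : (0 : ℝ) < N := by exact_mod_cast hN
  have hsummable : Summable fun n : ℕ => ((n : ℝ) ^ (a * β))⁻¹ := Real.summable_nat_rpow_inv.2 haβ
  have hsum := (EulerProduct.summable_and_hasSum_smoothNumbers_prod_primesBelow_tsum
    (f := fT σ a T) (fT_one σ a T) (fun h => fT_mul σ a T h)
    (fun {p} hp => by
      have h1 := (hasSum_fT hσ a T hp).summable
      refine h1.congr fun n => ?_
      rw [Real.norm_of_nonneg (fT_nonneg σ a T _)]) (N + 1)).2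
  have hmem : ∀ s ∈ Finset.Icc 1 N, s ∈ Nat.smoothNumbers (N + 1) := by
    intro s hs
    obtain ⟨h1, h2⟩ := Finset.mem_Icc.1 hs
    rw [Nat.mem_smoothNumbers]
    refine ⟨by omega, fun p hp => ?_⟩
    exact Nat.lt_succ_of_le ((Nat.le_of_mem_primeFactorsList hp).trans h2)
  have hle : ∑ s ∈ Finset.Icc 1 N, fT σ a T s ≤
      ∏ p ∈ (N + 1).primesBelow, ∑' n : ℕ, fT σ a T (p ^ n) := by
    have h3 := sum_le_hasSum ((Finset.Icc 1 N).subtype (fun d => d ∈ Nat.smoothNumbers (N + 1)))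
      (fun m _ => fT_nonneg σ a T m) hsum
    have h4 : ∑ d ∈ (Finset.Icc 1 N).subtype (fun d => d ∈ Nat.smoothNumbers (N + 1)),
        fT σ a T (d : ℕ) = ∑ d ∈ Finset.Icc 1 N, fT σ a T d :=
      Finset.sum_subtype_of_mem (fun d => fT σ a T d) hmem
    rw [← h4]
    exact h3
  have h2σ : (1 : ℝ) ≤ 1 + 2 / σ := by
    have : 0 < 2 / σ := by positivity
    linarith
  have hprod : ∏ p ∈ (N + 1).primesBelow, ∑' n : ℕ, fT σ a T (p ^ n) ≤
      (1 + 2 / σ) ^ T.card *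
        Real.exp ((2 / σ) ^ β * (∑' n : ℕ, ((n : ℝ) ^ (a * β))⁻¹) / β) := by
    have h1 : ∀ p ∈ (N + 1).primesBelow, ∑' n : ℕ, fT σ a T (p ^ n) ≤
        (if p ∈ T then (1 + 2 / σ) else 1) *
          Real.exp ((2 / σ) ^ β * ((p : ℝ) ^ (a * β))⁻¹ / β) := by
      intro p hp
      have hpp := Nat.prime_of_mem_primesBelow hp
      have hp0 : (0 : ℝ) < p := by exact_mod_cast hpp.pos
      rw [(hasSum_fT hσ a T hpp).tsum_eq, add_comm, mul_assoc]
      have hE : 1 ≤ Real.exp ((2 / σ) ^ β * ((p : ℝ) ^ (a * β))⁻¹ / β) :=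
        Real.one_le_exp (by positivity)
      unfold cT
      split_ifs with hT
      · have h3 := y_bound hσ hpp
        calc 1 + 1 * ((p : ℝ) ^ (-σ) * (1 - (p : ℝ) ^ (-σ))⁻¹) ≤ 1 + 2 / σ := by linarith
          _ = (1 + 2 / σ) * 1 := (mul_one _).symm
          _ ≤ _ := mul_le_mul_of_nonneg_left hE (by linarith)
      · rw [one_mul]
        have h2 : 1 + (p : ℝ) ^ (-a) * ((p : ℝ) ^ (-σ) * (1 - (p : ℝ) ^ (-σ))⁻¹) ≤
            1 + (2 / σ) * (p : ℝ) ^ (-a) := by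
          have h3 := mul_le_mul_of_nonneg_left (y_bound hσ hpp)
            (Real.rpow_nonneg hp0.le (-a))
          linarith
        refine h2.trans ((one_add_le (by positivity) hβ hβ1).trans (le_of_eq ?_))
        congr 2
        rw [Real.mul_rpow (by positivity) (by positivity), ← Real.rpow_mul hp0.le, neg_mul,
          Real.rpow_neg hp0.le]
    refine (Finset.prod_le_prod (fun p hp => ?_) h1).trans ?_
    · rw [(hasSum_fT hσ a T (Nat.prime_of_mem_primesBelow hp)).tsum_eq]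
      have hy := y_lt hσ (Nat.prime_of_mem_primesBelow hp)
      have : 0 < (1 - (p : ℝ) ^ (-σ))⁻¹ := inv_pos.2 (by linarith)
      have h0 := cT_nonneg a T p
      positivity
    · rw [Finset.prod_mul_distrib]
      refine mul_le_mul ?_ ?_ (Finset.prod_nonneg fun _ _ => (Real.exp_pos _).le) (by positivity)
      · rw [← Finset.prod_filter, Finset.prod_const]
        refine pow_le_pow_right₀ h2σ (Finset.card_le_card fun p hp => ?_)
        exact (Finset.mem_filter.1 hp).2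
      · rw [← Real.exp_sum]
        refine Real.exp_le_exp.2 ?_
        rw [← Finset.sum_div, ← Finset.mul_sum]
        refine div_le_div_of_nonneg_right (mul_le_mul_of_nonneg_left ?_ (by positivity)) hβ.le
        exact hsummable.sum_le_tsum _ (fun n _ => by positivity)
  have hlow : ∑ s ∈ Finset.Icc 1 N, gT a T s ≤
      (N : ℝ) ^ σ * ∑ s ∈ Finset.Icc 1 N, fT σ a T s := by
    rw [Finset.mul_sum]
    refine Finset.sum_le_sum fun s hs => ?_
    obtain ⟨h1, h2⟩ := Finset.mem_Icc.1 hs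
    have hs0 : (0 : ℝ) < s := by exact_mod_cast h1
    have h3 : 1 ≤ (N : ℝ) ^ σ * (s : ℝ) ^ (-σ) := by
      rw [Real.rpow_neg hs0.le, ← div_eq_mul_inv, one_le_div (by positivity)]
      exact Real.rpow_le_rpow hs0.le (by exact_mod_cast h2) hσ.le
    unfold fT
    rw [← mul_assoc]
    exact le_mul_of_one_le_left (gT_nonneg _ _ _) h3
  refine hlow.trans ?_
  rw [Real.exp_add]
  calc (N : ℝ) ^ σ * ∑ s ∈ Finset.Icc 1 N, fT σ a T s ≤
      Real.exp (σ * Real.log N) * ((1 + 2 / σ) ^ T.card *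
        Real.exp ((2 / σ) ^ β * (∑' n : ℕ, ((n : ℝ) ^ (a * β))⁻¹) / β)) := by
        refine mul_le_mul (le_of_eq ?_) (hle.trans hprod)
          (Finset.sum_nonneg fun s _ => fT_nonneg σ a T s) (Real.exp_pos _).le
        rw [Real.rpow_def_of_pos hN0, mul_comm]
    _ = _ := by ring

/-- the sum of `gT` is small -/
theorem gT_sum {a ε : ℝ} (ha : 1 < a) (hε : 0 < ε) : ∃ D : ℝ, 0 < D ∧ ∀ (T : Finset ℕ) (N : ℕ),
    (∀ q ∈ T, q.Prime) → 1 ≤ N →
    ∑ s ∈ Finset.Icc 1 N, gT a T s ≤ D * ((∏ q ∈ T, q : ℕ) : ℝ) ^ ε * (N : ℝ) ^ ε := by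
  classical
  obtain ⟨D, hD, h⟩ := Pool.Agent.H785R2.ABC.stmtA1 (1 + 2 / ε)
    (by have : 0 < 2 / ε := by positivity
        linarith) ε hε
  obtain ⟨Z, hZ⟩ : ∃ Z : ℝ, Z = (2 / ε) ^ (1 : ℝ) * (∑' n : ℕ, ((n : ℝ) ^ (a * 1))⁻¹) / 1 :=
    ⟨_, rfl⟩
  refine ⟨D * Real.exp Z, by positivity, fun T N hT hN => ?_⟩
  have h1 := rankin_free (σ := ε) (a := a) (β := 1) hε one_pos le_rfl (by linarith) T N hN
  rw [← hZ, Real.exp_add] at h1
  have hTpos : 0 < ∏ q ∈ T, q := Finset.prod_pos fun q hq => (hT q hq).pos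
  have h2 := h (∏ q ∈ T, q) hTpos
  rw [Nat.primeFactors_prod hT] at h2
  have hN0 : (0 : ℝ) < N := by exact_mod_cast hN
  have h3 : Real.exp (ε * Real.log N) = (N : ℝ) ^ ε := by
    rw [Real.rpow_def_of_pos hN0, mul_comm]
  rw [h3] at h1
  refine h1.trans ?_
  calc (1 + 2 / ε) ^ T.card * ((N : ℝ) ^ ε * Real.exp Z) ≤
      (D * ((∏ q ∈ T, q : ℕ) : ℝ) ^ ε) * ((N : ℝ) ^ ε * Real.exp Z) :=
        mul_le_mul_of_nonneg_right h2 (by positivity)
    _ = _ := by ring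

section NZ

variable {r : ℕ} [NeZero r]

/-- the logarithm of the radical of a value, apart from given primes -/
noncomputable def rfT (L : Fm r) (T : Finset ℕ) (P : ℤ × ℤ) (i : Fin r) : ℝ :=
  ∑ q ∈ (va L P i).primeFactors \ T, Real.log (q : ℝ)

/-- the same for a side -/
noncomputable def rrT (L : Fm r) (T : Finset ℕ) (P : ℤ × ℤ) (i : Fin r) : ℝ :=
  ∑ q ∈ Sd L P i \ T, Real.log (q : ℝ)

theorem rrT_sum (L : Fm r) (T : Finset ℕ) (P : ℤ × ℤ) :
    ∑ i, rrT L T P i = ∑ q ∈ (Np L P).primeFactors \ T, Real.log (q : ℝ) := by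
  classical
  unfold rrT Sd
  rw [← Finset.sum_fiberwise (s := (Np L P).primeFactors \ T) (g := ty L P)]
  refine Finset.sum_congr rfl fun i _ => ?_
  refine Finset.sum_congr ?_ fun _ _ => rfl
  ext q
  simp only [Finset.mem_sdiff, Finset.mem_filter]
  tauto

theorem rfT_le {L : Fm r} {P : ℤ × ℤ} (h : Pt L P) (T : Finset ℕ) (i : Fin r) :
    rfT L T P i ≤ rrT L T P i + Real.log (Rs L) := by
  classical
  have hf : ∀ q : ℕ, 0 ≤ Real.log (q : ℝ) := fun q => Real.log_natCast_nonneg q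
  have hsub : (va L P i).primeFactors \ T ⊆ (Sd L P i \ T) ∪ (Rs L).primeFactors := by
    intro q hq
    obtain ⟨h1, h2⟩ := Finset.mem_sdiff.1 hq
    rcases Finset.mem_union.1 (pf_sub h i h1) with h3 | h3
    · exact Finset.mem_union_left _ (Finset.mem_sdiff.2 ⟨h3, h2⟩)
    · exact Finset.mem_union_right _ h3
  have h1 : rfT L T P i ≤ ∑ q ∈ (Sd L P i \ T) ∪ (Rs L).primeFactors, Real.log (q : ℝ) :=
    Finset.sum_le_sum_of_subset_of_nonneg hsub fun q _ _ => hf q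
  have h2 := sum_union_le' (fun q : ℕ => Real.log (q : ℝ)) hf (Sd L P i \ T) (Rs L).primeFactors
  have h3 := sum_E_le L
  unfold rrT
  linarith

theorem gT_eq (a : ℝ) (L : Fm r) (T : Finset ℕ) (P : ℤ × ℤ) (i : Fin r) :
    gT a T (va L P i) = Real.exp (-a * rfT L T P i) := by
  unfold rfT gT
  rw [Finset.mul_sum, Real.exp_sum]
  refine Finset.prod_congr rfl fun p hp => ?_
  have hp0 : (0 : ℝ) < p := by
    exact_mod_cast (Nat.prime_of_mem_primeFactors (Finset.mem_sdiff.1 hp).1).pos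
  rw [Real.rpow_def_of_pos hp0]
  congr 1
  ring

/-- the points for which two given sides have a small radical apart from `T` -/
theorem pair_count_free {L : Fm r} {a Θ : ℝ} (ha : 0 ≤ a) (T : Finset ℕ) (N : ℕ) {i j : Fin r}
    (hij : i ≠ j) (F : Finset (ℤ × ℤ))
    (hF : ∀ t ∈ F, Pt L t ∧ (∀ i, va L t i ≤ N) ∧ rfT L T t i + rfT L T t j ≤ Θ) :
    (F.card : ℝ) ≤ 4 * (Real.exp (a * Θ) * (∑ s ∈ Finset.Icc 1 N, gT a T s) ^ 2) := by
  classical
  have hg0 : ∀ s, 0 ≤ gT a T s := gT_nonneg a T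
  have h1 : (F.card : ℝ) ≤ ∑ t ∈ F, Real.exp (a * Θ) * (gT a T (va L t i) * gT a T (va L t j)) := by
    rw [Finset.card_eq_sum_ones, Nat.cast_sum]
    refine Finset.sum_le_sum fun t ht => ?_
    obtain ⟨_, _, h3⟩ := hF t ht
    rw [gT_eq, gT_eq, ← Real.exp_add, ← Real.exp_add, Nat.cast_one]
    rw [Real.one_le_exp_iff]
    nlinarith
  let φ : ℤ × ℤ → (Bool × Bool) × (ℕ × ℕ) := fun t =>
    ((decide (0 < ev L t i), decide (0 < ev L t j)), (va L t i, va L t j))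
  have hinj : Set.InjOn φ (F : Set (ℤ × ℤ)) := by
    intro t ht t' ht' he
    simp only [φ, Prod.mk.injEq] at he
    obtain ⟨⟨s1, s2⟩, e1, e2⟩ := he
    have key : ∀ x y : ℤ, decide (0 < x) = decide (0 < y) → x.natAbs = y.natAbs → x ≠ 0 →
        x = y := by
      intro x y hs hxy hx
      have hs' : 0 < x ↔ 0 < y := by simpa using hs
      omega
    have g1 : ev L t i = ev L t' i := key _ _ s1 e1 ((hF t ht).1.ne i)
    have g2 : ev L t j = ev L t' j := key _ _ s2 e2 ((hF t ht).1.ne j)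
    have hr := L.res i j hij
    have c1 := cross1 L t i j
    have c2 := cross1 L t' i j
    have c3 := cross2 L t i j
    have c4 := cross2 L t' i j
    rw [g1, g2, ← c2] at c1
    rw [g1, g2, ← c4] at c3
    ext
    · exact mul_left_cancel₀ hr c1
    · exact mul_left_cancel₀ hr c3
  have h2 : ∑ t ∈ F, Real.exp (a * Θ) * (gT a T (va L t i) * gT a T (va L t j)) ≤
      4 * (Real.exp (a * Θ) * (∑ s ∈ Finset.Icc 1 N, gT a T s) ^ 2) := by
    rw [← Finset.mul_sum]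
    have h3 : ∑ t ∈ F, gT a T (va L t i) * gT a T (va L t j) =
        ∑ x ∈ F.image φ, gT a T x.2.1 * gT a T x.2.2 := by
      rw [Finset.sum_image hinj]
    have h4 : ∑ x ∈ F.image φ, gT a T x.2.1 * gT a T x.2.2 ≤
        ∑ x ∈ (Finset.univ : Finset (Bool × Bool)) ×ˢ (Finset.Icc 1 N ×ˢ Finset.Icc 1 N),
          gT a T x.2.1 * gT a T x.2.2 := by
      refine Finset.sum_le_sum_of_subset_of_nonneg ?_ fun x _ _ => mul_nonneg (hg0 _) (hg0 _)
      intro x hx
      obtain ⟨t, ht, rfl⟩ := Finset.mem_image.1 hx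
      obtain ⟨b1, b2, _⟩ := hF t ht
      rw [Finset.mem_product, Finset.mem_product]
      exact ⟨Finset.mem_univ _, Finset.mem_Icc.2 ⟨va_pos b1 i, b2 i⟩,
        Finset.mem_Icc.2 ⟨va_pos b1 j, b2 j⟩⟩
    have h5 : ∑ x ∈ (Finset.univ : Finset (Bool × Bool)) ×ˢ (Finset.Icc 1 N ×ˢ Finset.Icc 1 N),
          gT a T x.2.1 * gT a T x.2.2 = 4 * (∑ s ∈ Finset.Icc 1 N, gT a T s) ^ 2 := by
      have e1 : ∑ x ∈ Finset.Icc 1 N ×ˢ Finset.Icc 1 N, gT a T x.1 * gT a T x.2 =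
          (∑ s ∈ Finset.Icc 1 N, gT a T s) ^ 2 := by
        rw [Finset.sum_product, sq, Finset.sum_mul_sum]
      rw [Finset.sum_product]
      show ∑ _x : Bool × Bool, ∑ y ∈ Finset.Icc 1 N ×ˢ Finset.Icc 1 N,
        gT a T y.1 * gT a T y.2 = _
      rw [Finset.sum_const, e1, Finset.card_univ, Fintype.card_prod, Fintype.card_bool,
        nsmul_eq_mul]
      norm_num
    rw [h3]
    calc Real.exp (a * Θ) * ∑ x ∈ F.image φ, gT a T x.2.1 * gT a T x.2.2 ≤
        Real.exp (a * Θ) * (4 * (∑ s ∈ Finset.Icc 1 N, gT a T s) ^ 2) :=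
          mul_le_mul_of_nonneg_left (h4.trans h5.le) (Real.exp_pos _).le
      _ = _ := by ring
  exact h1.trans h2

end NZ

/-- **points of bounded height, free primes** -/
theorem free_poly {d : ℕ} (L : Fm (d + 3)) (ε : ℝ) (hε : 0 < ε) : ∃ D : ℝ, 0 < D ∧
    ∀ Λ H Y : ℝ, 0 ≤ Λ → 0 ≤ H → ∀ T : Finset ℕ, (∀ q ∈ T, q.Prime) →
      ((∏ q ∈ T, q : ℕ) : ℝ) ≤ Real.exp Y → ∀ F : Finset (ℤ × ℤ), (∀ t ∈ F, Pt L t ∧
        Real.log (ht t) ≤ H ∧
        ∑ q ∈ (Np L t).primeFactors \ T, Real.log (q : ℝ) ≤ Λ) →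
      (F.card : ℝ) ≤ D * Real.exp ((2 / ((d : ℝ) + 3) + ε) * Λ + ε * H + ε * Y) := by
  classical
  obtain ⟨D, hD, hg⟩ := gT_sum (a := 1 + ε) (ε := ε / 2) (by linarith) (by positivity)
  have hUp : (0 : ℝ) < U L := by exact_mod_cast U_pos L
  have hU1 : (1 : ℝ) ≤ U L := by exact_mod_cast U_pos L
  have n1 := Real.log_natCast_nonneg (Rs L)
  have hd0 : (0 : ℝ) ≤ d := Nat.cast_nonneg d
  obtain ⟨c, hc⟩ : ∃ c : ℝ, c = 2 * Real.log (Rs L) := ⟨_, rfl⟩
  refine ⟨(d + 3) * (4 * (Real.exp ((1 + ε) * c) * (D ^ 2 * (U L : ℝ) ^ ε))), by positivity,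
    fun Λ H Y hΛ hH T hT hTY F hF => ?_⟩
  obtain ⟨N, hN⟩ : ∃ N : ℕ, N = ⌊(U L : ℝ) * Real.exp H⌋₊ := ⟨_, rfl⟩
  have hN1 : 1 ≤ N := by
    rw [hN]
    refine Nat.le_floor ?_
    rw [Nat.cast_one]
    exact one_le_mul_of_one_le_of_one_le hU1 (Real.one_le_exp hH)
  have hNle : (N : ℝ) ≤ U L * Real.exp H := by rw [hN]; exact Nat.floor_le (by positivity)
  have hTpos : 0 < ∏ q ∈ T, q := Finset.prod_pos fun q hq => (hT q hq).pos
  obtain ⟨V, hV⟩ : ∃ V : ℝ, V = ∑ s ∈ Finset.Icc 1 N, gT (1 + ε) T s := ⟨_, rfl⟩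
  have hV0 : 0 ≤ V := by
    rw [hV]
    exact Finset.sum_nonneg fun s _ => gT_nonneg _ _ _
  have hVle : V ≤ D * Real.exp (ε / 2 * Y) * ((U L : ℝ) ^ (ε / 2) * Real.exp (ε / 2 * H)) := by
    rw [hV]
    refine (hg T N hT hN1).trans ?_
    refine mul_le_mul (mul_le_mul_of_nonneg_left ?_ hD.le) ?_ (by positivity) (by positivity)
    · have h1 : ((∏ q ∈ T, q : ℕ) : ℝ) ^ (ε / 2) ≤ (Real.exp Y) ^ (ε / 2) :=
        Real.rpow_le_rpow (Nat.cast_nonneg _) hTY (by positivity)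
      rwa [← Real.exp_mul, mul_comm Y] at h1
    · have h1 : (N : ℝ) ^ (ε / 2) ≤ (U L * Real.exp H) ^ (ε / 2) :=
        Real.rpow_le_rpow (Nat.cast_nonneg _) hNle (by positivity)
      rwa [Real.mul_rpow hUp.le (Real.exp_pos _).le, ← Real.exp_mul, mul_comm H] at h1
  have hV2 : V ^ 2 ≤ D ^ 2 * (U L : ℝ) ^ ε * Real.exp (ε * H + ε * Y) := by
    refine (pow_le_pow_left₀ hV0 hVle 2).trans (le_of_eq ?_)
    have e1 : ((U L : ℝ) ^ (ε / 2)) ^ 2 = (U L : ℝ) ^ ε := by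
      rw [← Real.rpow_natCast, ← Real.rpow_mul hUp.le]
      congr 1
      push_cast
      ring
    have e2 : ∀ x : ℝ, (Real.exp (ε / 2 * x)) ^ 2 = Real.exp (ε * x) := by
      intro x
      rw [← Real.exp_nat_mul]
      congr 1
      push_cast
      ring
    rw [mul_pow, mul_pow, mul_pow, e1, e2, e2, Real.exp_add]
    ring
  have hd1 : ∀ i : Fin (d + 3), i ≠ i + 1 := by
    intro i hi
    have h1 : (1 : Fin (d + 3)) = 0 := by
      have := hi.symm
      rwa [add_eq_left] at this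
    exact absurd (congrArg Fin.val h1) (by simp)
  obtain ⟨Θ, hΘ⟩ : ∃ Θ, Θ = 2 / ((d : ℝ) + 3) * Λ + c := ⟨_, rfl⟩
  obtain ⟨K, hK⟩ : ∃ K, K = Real.exp ((2 / ((d : ℝ) + 3) + ε) * Λ + ε * H + ε * Y) := ⟨_, rfl⟩
  have hpair : ∀ i : Fin (d + 3),
      ((F.filter fun t => rfT L T t i + rfT L T t (i + 1) ≤ Θ).card : ℝ) ≤
        4 * (Real.exp ((1 + ε) * c) * (D ^ 2 * (U L : ℝ) ^ ε)) * K := by
    intro i
    have h1 := pair_count_free (L := L) (a := 1 + ε) (Θ := Θ) (by positivity) T N (hd1 i)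
      (F.filter fun t => rfT L T t i + rfT L T t (i + 1) ≤ Θ) (fun t ht => by
        obtain ⟨b1, b2⟩ := Finset.mem_filter.1 ht
        obtain ⟨c1, c2, c3⟩ := hF t b1
        refine ⟨c1, fun j => ?_, b2⟩
        rw [hN]
        refine Nat.le_floor ?_
        have h3 : (va L t j : ℝ) ≤ U L * Pool.Agent.TH867.QF.ht t := by exact_mod_cast va_le L t j
        refine h3.trans (mul_le_mul_of_nonneg_left ?_ hUp.le)
        rw [← Real.log_le_iff_le_exp (by exact_mod_cast ht_pos c1)]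
        exact c2)
    rw [← hV] at h1
    refine h1.trans ?_
    have h2 : Real.exp ((1 + ε) * Θ) ≤ Real.exp ((1 + ε) * c) *
        Real.exp ((2 / ((d : ℝ) + 3) + ε) * Λ) := by
      rw [← Real.exp_add]
      refine Real.exp_le_exp.2 ?_
      rw [hΘ]
      have h5 : 2 / ((d : ℝ) + 3) ≤ 1 := by
        rw [div_le_one (by positivity)]
        linarith
      have h7 : ε * (2 / ((d : ℝ) + 3) * Λ) ≤ ε * (1 * Λ) := by
        refine mul_le_mul_of_nonneg_left ?_ hε.le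
        exact mul_le_mul_of_nonneg_right h5 hΛ
      linarith
    calc 4 * (Real.exp ((1 + ε) * Θ) * V ^ 2) ≤
        4 * ((Real.exp ((1 + ε) * c) * Real.exp ((2 / ((d : ℝ) + 3) + ε) * Λ)) *
          (D ^ 2 * (U L : ℝ) ^ ε * Real.exp (ε * H + ε * Y))) := by
          refine mul_le_mul_of_nonneg_left ?_ (by norm_num)
          exact mul_le_mul h2 hV2 (by positivity) (by positivity)
      _ = 4 * (Real.exp ((1 + ε) * c) * (D ^ 2 * (U L : ℝ) ^ ε)) *
          (Real.exp ((2 / ((d : ℝ) + 3) + ε) * Λ) * Real.exp (ε * H + ε * Y)) := by ring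
      _ = _ := by rw [← Real.exp_add, hK, add_assoc]
  have hcover : F ⊆ (Finset.univ : Finset (Fin (d + 3))).biUnion
      (fun i => F.filter fun t => rfT L T t i + rfT L T t (i + 1) ≤ Θ) := by
    intro t ht
    obtain ⟨c1, -, c2⟩ := hF t ht
    by_contra hcon
    rw [Finset.mem_biUnion] at hcon
    push Not at hcon
    have h1 : ∀ i : Fin (d + 3), Θ < rfT L T t i + rfT L T t (i + 1) := by
      intro i
      have h2 := hcon i (Finset.mem_univ i)
      rw [Finset.mem_filter] at h2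
      push Not at h2
      exact h2 ht
    have h3 : ∀ i : Fin (d + 3), 2 / ((d : ℝ) + 3) * Λ < rrT L T t i + rrT L T t (i + 1) := by
      intro i
      have h4 := h1 i
      have h5 := rfT_le c1 T i
      have h6 := rfT_le c1 T (i + 1)
      rw [hΘ, hc] at h4
      linarith
    have hsum := Finset.sum_lt_sum_of_nonempty (s := (Finset.univ : Finset (Fin (d + 3))))
      ⟨0, Finset.mem_univ _⟩ (fun i _ => h3 i)
    have e1 : ∑ i, rrT L T t (i + 1) = ∑ i, rrT L T t i :=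
      Equiv.sum_comp (Equiv.addRight (1 : Fin (d + 3))) (fun i => rrT L T t i)
    rw [Finset.sum_add_distrib, e1, Finset.sum_const, Finset.card_univ, Fintype.card_fin,
      nsmul_eq_mul, rrT_sum] at hsum
    push_cast at hsum
    have e2 : ((d : ℝ) + 3) * (2 / ((d : ℝ) + 3) * Λ) = 2 * Λ := by field_simp
    linarith
  have h7 : (F.card : ℝ) ≤ ∑ i : Fin (d + 3),
      ((F.filter fun t => rfT L T t i + rfT L T t (i + 1) ≤ Θ).card : ℝ) := by
    exact_mod_cast (Finset.card_le_card hcover).trans Finset.card_biUnion_le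
  refine (h7.trans (Finset.sum_le_sum fun i _ => hpair i)).trans (le_of_eq ?_)
  rw [Finset.sum_const, Finset.card_univ, Fintype.card_fin, nsmul_eq_mul, hK]
  push_cast
  ring

end Pool.Agent.TH893.PG
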